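import Mathlib

/-!
Normal conditional expectations between von Neumann algebras.
-/

set_option autoImplicit false
open scoped InnerProductSpace Topology
open Filter

namespace Pool.Agent.W26.WD

variable {H : Type} [NormedAddCommGroup H] [InnerProductSpace ℂ H] [CompleteSpace H]

/-- `E` restricts to a normal conditional expectation of `M` onto `N`: on `M` it is linear, takes
values in `N`, is unital, positive, `N`-bimodular, and continuous for the weak operator topology on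
bounded subsets of `M`. -/
structure IsNormalExpectation (N M : VonNeumannAlgebra H)
    (E : (H →L[ℂ] H) → (H →L[ℂ] H)) : Prop where
  mem : ∀ x ∈ M, E x ∈ N
  add : ∀ x ∈ M, ∀ y ∈ M, E (x + y) = E x + E y
  smul : ∀ (c : ℂ), ∀ x ∈ M, E (c • x) = c • E x
  one : E 1 = 1
  pos : ∀ x ∈ M, (E (star x * x)).IsPositive
  bimod : ∀ a ∈ N, ∀ x ∈ M, ∀ b ∈ N, E (a * x * b) = a * E x * b
  normal : ∀ (ι : Type) (l : Filter ι) (x : ι → (H →L[ℂ] H)) (y : H →L[ℂ] H) (C : ℝ),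
    (∀ i, x i ∈ M ∧ ‖x i‖ ≤ C) → y ∈ M →
    (∀ ξ η : H, Tendsto (fun i => ⟪η, x i ξ⟫_ℂ) l (𝓝 ⟪η, y ξ⟫_ℂ)) →
    ∀ ξ η : H, Tendsto (fun i => ⟪η, E (x i) ξ⟫_ℂ) l (𝓝 ⟪η, E y ξ⟫_ℂ)

end Pool.Agent.W26.WD
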