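import Mathlib
import Pool.Agent.W26.WD.Defs

/-!
Normal conditional expectations between von Neumann algebras: definition and elementary calculus.
-/

set_option autoImplicit false
open scoped InnerProductSpace ComplexOrder Topology
open Filter

noncomputable section

namespace Pool.Agent.W26.WD

variable {H : Type} [NormedAddCommGroup H] [InnerProductSpace ℂ H] [CompleteSpace H]

/-- The quadratic form of `E`. -/
def Q (E : (H →L[ℂ] H) → (H →L[ℂ] H)) (ξ : H) (x : H →L[ℂ] H) : ℝ :=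
  (⟪ξ, E (star x * x) ξ⟫_ℂ).re

/-- The symmetrised sesquilinear form of `E`. -/
def B (E : (H →L[ℂ] H) → (H →L[ℂ] H)) (ξ : H) (x y : H →L[ℂ] H) : ℝ :=
  (⟪ξ, E (star x * y) ξ⟫_ℂ).re + (⟪ξ, E (star y * x) ξ⟫_ℂ).re

/-- The identity is a normal conditional expectation of `N` onto itself. -/
theorem isNormalExpectation_id (N : VonNeumannAlgebra H) : IsNormalExpectation N N id where
  mem := fun x hx => hx
  add := fun x _ y _ => rfl
  smul := fun c x _ => rfl
  one := rfl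
  pos := fun x _ => by
    rw [id, ← ContinuousLinearMap.nonneg_iff_isPositive]
    exact star_mul_self_nonneg x
  bimod := fun a _ x _ b _ => rfl
  normal := fun ι l x y C _ _ h => h

theorem smul_mem_vn (N : VonNeumannAlgebra H) (c : ℂ) {a : H →L[ℂ] H} (ha : a ∈ N) :
    c • a ∈ N := N.toStarSubalgebra.smul_mem ha c

theorem rsmul_mem_vn (N : VonNeumannAlgebra H) (c : ℝ) {a : H →L[ℂ] H} (ha : a ∈ N) :
    c • a ∈ N := by
  have : c • a = (c : ℂ) • a := by rw [Complex.coe_smul]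
  rw [this]
  exact smul_mem_vn N _ ha

theorem inner_star (a : H →L[ℂ] H) (x y : H) : ⟪x, a y⟫_ℂ = ⟪(star a) x, y⟫_ℂ := by
  rw [ContinuousLinearMap.star_eq_adjoint, ContinuousLinearMap.adjoint_inner_left]

theorem inner_star' (a : H →L[ℂ] H) (x y : H) : ⟪a x, y⟫_ℂ = ⟪x, (star a) y⟫_ℂ := by
  rw [ContinuousLinearMap.star_eq_adjoint, ContinuousLinearMap.adjoint_inner_right]

theorem inner_sq (b : H →L[ℂ] H) (ξ : H) : (⟪ξ, (star b * b) ξ⟫_ℂ).re = ‖b ξ‖ ^ 2 := by
  have h1 : (star b * b) ξ = star b (b ξ) := rfl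
  rw [h1, inner_star, star_star, inner_self_eq_norm_sq_to_K]
  norm_cast

namespace IsNormalExpectation

variable {N M : VonNeumannAlgebra H} {E : (H →L[ℂ] H) → (H →L[ℂ] H)}
  (hE : IsNormalExpectation N M E)

include hE

theorem zero : E 0 = 0 := by
  have h := hE.smul 0 0 (zero_mem M)
  rwa [zero_smul, zero_smul] at h

theorem neg {x : H →L[ℂ] H} (hx : x ∈ M) : E (-x) = -E x := by
  have h := hE.smul (-1) x hx
  rwa [neg_one_smul, neg_one_smul] at h

theorem sub {x y : H →L[ℂ] H} (hx : x ∈ M) (hy : y ∈ M) : E (x - y) = E x - E y := by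
  rw [sub_eq_add_neg, hE.add x hx (-y) (neg_mem hy), hE.neg hy, sub_eq_add_neg]

theorem rsmul (c : ℝ) {x : H →L[ℂ] H} (hx : x ∈ M) : E (c • x) = c • E x := by
  have h1 : c • x = (c : ℂ) • x := by rw [Complex.coe_smul]
  have h2 : c • E x = (c : ℂ) • E x := by rw [Complex.coe_smul]
  rw [h1, h2, hE.smul _ x hx]

theorem left {a x : H →L[ℂ] H} (ha : a ∈ N) (hx : x ∈ M) : E (a * x) = a * E x := by
  have h := hE.bimod a ha x hx 1 (one_mem N)
  rwa [mul_one, mul_one] at h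

theorem right {x b : H →L[ℂ] H} (hx : x ∈ M) (hb : b ∈ N) : E (x * b) = E x * b := by
  have h := hE.bimod 1 (one_mem N) x hx b hb
  rwa [one_mul, one_mul] at h

theorem Q_nonneg (ξ : H) {x : H →L[ℂ] H} (hx : x ∈ M) : 0 ≤ Q E ξ x := by
  have h := (hE.pos x hx).inner_nonneg_right ξ
  exact (Complex.le_def.1 h).1

theorem Q_add (ξ : H) {x y : H →L[ℂ] H} (hx : x ∈ M) (hy : y ∈ M) :
    Q E ξ (x + y) = Q E ξ x + B E ξ x y + Q E ξ y := by
  unfold Q B
  have h1 : star (x + y) * (x + y) = star x * x + star x * y + (star y * x + star y * y) := by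
    rw [star_add, add_mul, mul_add, mul_add]
  have m1 : star x * x ∈ M := mul_mem (star_mem hx) hx
  have m2 : star x * y ∈ M := mul_mem (star_mem hx) hy
  have m3 : star y * x ∈ M := mul_mem (star_mem hy) hx
  have m4 : star y * y ∈ M := mul_mem (star_mem hy) hy
  rw [h1, hE.add _ (add_mem m1 m2) _ (add_mem m3 m4), hE.add _ m1 _ m2, hE.add _ m3 _ m4]
  simp only [add_apply, inner_add_right, Complex.add_re]
  ring

theorem Q_sub (ξ : H) {x y : H →L[ℂ] H} (hx : x ∈ M) (hy : y ∈ M) :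
    Q E ξ (x - y) = Q E ξ x - B E ξ x y + Q E ξ y := by
  unfold Q B
  have h1 : star (x - y) * (x - y) = star x * x - star x * y - (star y * x - star y * y) := by
    rw [star_sub, sub_mul, mul_sub, mul_sub]
  have m1 : star x * x ∈ M := mul_mem (star_mem hx) hx
  have m2 : star x * y ∈ M := mul_mem (star_mem hx) hy
  have m3 : star y * x ∈ M := mul_mem (star_mem hy) hx
  have m4 : star y * y ∈ M := mul_mem (star_mem hy) hy
  rw [h1, hE.sub (sub_mem m1 m2) (sub_mem m3 m4), hE.sub m1 m2, hE.sub m3 m4]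
  simp only [sub_apply, inner_sub_right, Complex.sub_re]
  ring

theorem Q_rsmul (ξ : H) (c : ℝ) {x : H →L[ℂ] H} (hx : x ∈ M) :
    Q E ξ (c • x) = c ^ 2 * Q E ξ x := by
  unfold Q
  have m1 : star x * x ∈ M := mul_mem (star_mem hx) hx
  have h1 : star (c • x) * (c • x) = (c ^ 2) • (star x * x) := by
    rw [star_smul, star_trivial, smul_mul_smul_comm, sq]
  rw [h1, hE.rsmul _ m1]
  have h2 : ((c ^ 2 : ℝ) • E (star x * x)) ξ = (c ^ 2 : ℝ) • (E (star x * x) ξ) := rfl
  rw [h2, inner_smul_right_eq_smul, Complex.smul_re, smul_eq_mul]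

theorem B_rsmul (ξ : H) (c d : ℝ) {x y : H →L[ℂ] H} (hx : x ∈ M) (hy : y ∈ M) :
    B E ξ (c • x) (d • y) = c * d * B E ξ x y := by
  unfold B
  have m2 : star x * y ∈ M := mul_mem (star_mem hx) hy
  have m3 : star y * x ∈ M := mul_mem (star_mem hy) hx
  have h1 : star (c • x) * (d • y) = (c * d) • (star x * y) := by
    rw [star_smul, star_trivial, smul_mul_smul_comm]
  have h1' : star (d • y) * (c • x) = (c * d) • (star y * x) := by
    rw [star_smul, star_trivial, smul_mul_smul_comm, mul_comm d c]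
  rw [h1, h1', hE.rsmul _ m2, hE.rsmul _ m3]
  have h2 : ∀ T : H →L[ℂ] H, ((c * d : ℝ) • T) ξ = (c * d : ℝ) • (T ξ) := fun T => rfl
  rw [h2, h2, inner_smul_right_eq_smul, Complex.smul_re, smul_eq_mul,
    inner_smul_right_eq_smul, Complex.smul_re, smul_eq_mul]
  ring

theorem B_le (ξ : H) {x y : H →L[ℂ] H} (hx : x ∈ M) (hy : y ∈ M) :
    B E ξ x y ≤ Q E ξ x + Q E ξ y := by
  have h1 := hE.Q_sub ξ hx hy
  have h2 := hE.Q_nonneg ξ (sub_mem hx hy)
  linarith

theorem Q_half (ξ : H) {x y : H →L[ℂ] H} (hx : x ∈ M) (hy : y ∈ M) :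
    Q E ξ ((1 / 2 : ℝ) • x + (1 / 2 : ℝ) • y) =
      (Q E ξ x + Q E ξ y) / 2 - Q E ξ (x - y) / 4 := by
  rw [hE.Q_add ξ (rsmul_mem_vn M _ hx) (rsmul_mem_vn M _ hy), hE.Q_rsmul ξ _ hx,
    hE.Q_rsmul ξ _ hy, hE.B_rsmul ξ _ _ hx hy, hE.Q_sub ξ hx hy]
  ring

theorem Q_convex (ξ : H) : ConvexOn ℝ {x : H →L[ℂ] H | x ∈ M} (Q E ξ) := by
  refine ⟨?_, ?_⟩
  · intro x hx y hy a b _ _ _
    exact add_mem (rsmul_mem_vn M _ hx) (rsmul_mem_vn M _ hy)
  · intro x hx y hy a b ha hb hab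
    have hx' : x ∈ M := hx
    have hy' : y ∈ M := hy
    rw [hE.Q_add ξ (rsmul_mem_vn M _ hx') (rsmul_mem_vn M _ hy'), hE.Q_rsmul ξ _ hx',
      hE.Q_rsmul ξ _ hy', hE.B_rsmul ξ _ _ hx' hy']
    have h1 := hE.B_le ξ hx' hy'
    simp only [smul_eq_mul]
    have h2 : a * b * B E ξ x y ≤ a * b * (Q E ξ x + Q E ξ y) :=
      mul_le_mul_of_nonneg_left h1 (mul_nonneg ha hb)
    have h3 : b = 1 - a := by linarith
    subst h3
    nlinarith

theorem Q_conj (ξ : H) {x u : H →L[ℂ] H} (hx : x ∈ M) (hu : u ∈ N)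
    (huu : star u * u = 1) : Q E ξ (u * x * star u) = Q E (star u ξ) x := by
  unfold Q
  have h1 : star (u * x * star u) * (u * x * star u) = u * (star x * x) * star u := by
    have : star (u * x * star u) * (u * x * star u) = u * star x * (star u * u) * x * star u := by
      rw [star_mul, star_mul, star_star]
      simp only [mul_assoc]
    rw [this, huu, mul_one, mul_assoc u]
  rw [h1, hE.bimod u hu _ (mul_mem (star_mem hx) hx) _ (star_mem hu)]
  have h2 : (u * E (star x * x) * star u) ξ = u (E (star x * x) (star u ξ)) := rfl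
  rw [h2, inner_star]

/-- Lower semicontinuity. -/
theorem Q_lsc (ξ : H) {ι : Type} (l : Filter ι) [l.NeBot]
    (x : ι → (H →L[ℂ] H)) (y : H →L[ℂ] H) (C : ℝ) (hx : ∀ i, x i ∈ M ∧ ‖x i‖ ≤ C) (hy : y ∈ M)
    (hlim : ∀ ξ η : H, Tendsto (fun i => ⟪η, x i ξ⟫_ℂ) l (𝓝 ⟪η, y ξ⟫_ℂ))
    (d : ι → ℝ) (D : ℝ) (hd : ∀ i, Q E ξ (x i) ≤ d i) (hD : Tendsto d l (𝓝 D)) :
    Q E ξ y ≤ D := by
  have h1 : ∀ ξ' η' : H, Tendsto (fun i => ⟪η', (star y * x i) ξ'⟫_ℂ) l
      (𝓝 ⟪η', (star y * y) ξ'⟫_ℂ) := by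
    intro ξ' η'
    have := hlim ξ' (y η')
    refine (this.congr fun i => ?_).trans ?_
    · have h2 : (star y * x i) ξ' = star y (x i ξ') := rfl
      rw [h2, inner_star (star y), star_star]
    · have h2 : (star y * y) ξ' = star y (y ξ') := rfl
      rw [h2, inner_star (star y), star_star]
  have h2 : ∀ ξ' η' : H, Tendsto (fun i => ⟪η', (star (x i) * y) ξ'⟫_ℂ) l
      (𝓝 ⟪η', (star y * y) ξ'⟫_ℂ) := by
    intro ξ' η'
    have h3 := (hlim η' (y ξ'))
    have h4 := (Complex.continuous_conj.tendsto _).comp h3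
    refine (h4.congr fun i => ?_).trans ?_
    · simp only [Function.comp_apply]
      rw [inner_conj_symm]
      have h2 : (star (x i) * y) ξ' = star (x i) (y ξ') := rfl
      rw [h2, inner_star (star (x i)), star_star]
    · rw [inner_conj_symm]
      have h2 : (star y * y) ξ' = star y (y ξ') := rfl
      rw [h2, inner_star (star y), star_star]
  have myy : star y * y ∈ M := mul_mem (star_mem hy) hy
  have hn1 := hE.normal ι l (fun i => star y * x i) (star y * y) (‖y‖ * C)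
    (fun i => ⟨mul_mem (star_mem hy) (hx i).1, (norm_mul_le _ _).trans (by
      rw [norm_star]
      exact mul_le_mul_of_nonneg_left (hx i).2 (norm_nonneg _))⟩) myy h1 ξ ξ
  have hn2 := hE.normal ι l (fun i => star (x i) * y) (star y * y) (C * ‖y‖)
    (fun i => ⟨mul_mem (star_mem (hx i).1) hy, (norm_mul_le _ _).trans (by
      rw [norm_star]
      exact mul_le_mul_of_nonneg_right (hx i).2 (norm_nonneg _))⟩) myy h2 ξ ξ
  have hr1 := (Complex.continuous_re.tendsto _).comp hn1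
  have hr2 := (Complex.continuous_re.tendsto _).comp hn2
  have hB : Tendsto (fun i => B E ξ y (x i)) l (𝓝 (Q E ξ y + Q E ξ y)) := hr1.add hr2
  have h5 : ∀ i, B E ξ y (x i) ≤ Q E ξ y + d i := by
    intro i
    have := hE.B_le ξ hy (hx i).1
    have := hd i
    linarith
  have h6 : Q E ξ y + Q E ξ y ≤ Q E ξ y + D :=
    le_of_tendsto_of_tendsto' hB (hD.const_add _) h5
  linarith

end IsNormalExpectation

end Pool.Agent.W26.WD
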