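import Mathlib
import Pool.Agent.W26.WD.Basic
import Pool.Agent.H130R2.Kad5.C5
import Pool.Agent.H445R2.Kad4.Range
import Pool.Agent.H495R2.KZ.WLim

/-!
Spectral projections and weak limits, in the form used below.
-/

set_option autoImplicit false
open scoped InnerProductSpace ComplexOrder Topology
open Filter

noncomputable section

namespace Pool.Agent.W26.WD

open H759R2.Kad

variable {H : Type} [NormedAddCommGroup H] [InnerProductSpace ℂ H] [CompleteSpace H]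

/-- A nonzero positive operator `b* b` dominates a multiple of a nonzero projection. -/
theorem spec_cut (M : VonNeumannAlgebra H) {s b : H →L[ℂ] H} (hs : s ∈ M) (hsp : IsPr s)
    (hb : b ∈ M) (hb0 : b ≠ 0) (hbs : b * s = b) :
    ∃ q ∈ M, ∃ (t : ℝ) (r₁ r₂ : H →L[ℂ] H), 0 < t ∧ r₁ ∈ M ∧ r₂ ∈ M ∧ IsPr q ∧ q ≠ 0 ∧
      s * q = q ∧ star b * b = star r₁ * r₁ + star r₂ * r₂ + (t : ℂ) • q := by
  obtain ⟨hs1, hs2⟩ := hsp
  have hbn : 0 < ‖b‖ := norm_pos_iff.2 hb0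
  have haM : star b * b ∈ M := mul_mem (star_mem hb) hb
  have hsb : s * (star b * b) = star b * b := by
    have := congrArg star hbs
    rw [star_mul, hs1] at this
    rw [← mul_assoc, this]
  obtain ⟨e, he, hse, hea, ⟨y, hy⟩, ⟨w, hw⟩⟩ := prove6_spec prove5_range H M
    (⟨s, hs⟩ : M.toStarSubalgebra) (⟨star b * b, haM⟩ : M.toStarSubalgebra) (‖b‖ ^ 2 / 2)
    ⟨Subtype.ext hs1, Subtype.ext hs2⟩
    (Subtype.ext (by change star (star b * b) = star b * b; rw [star_mul, star_star]))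
    (Subtype.ext hsb)
  have he1 : star (e : H →L[ℂ] H) = e := congrArg Subtype.val he.1
  have he2 : (e : H →L[ℂ] H) * e = e := congrArg Subtype.val he.2
  have hse' : s * (e : H →L[ℂ] H) = e := congrArg Subtype.val hse
  have hea' : (e : H →L[ℂ] H) * (star b * b) = (star b * b) * e := congrArg Subtype.val hea
  have hy' : (star b * b) * (e : H →L[ℂ] H) - ((‖b‖ ^ 2 / 2 : ℝ) : ℂ) • (e : H →L[ℂ] H) =
      star (y : H →L[ℂ] H) * y := congrArg Subtype.val hy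
  have hw' : ((‖b‖ ^ 2 / 2 : ℝ) : ℂ) • (s - (e : H →L[ℂ] H)) - (star b * b) * (s - e) =
      star (w : H →L[ℂ] H) * w := congrArg Subtype.val hw
  refine ⟨e, e.2, ‖b‖ ^ 2 / 2, b * (1 - e), y, by positivity,
    mul_mem hb (sub_mem (one_mem M) e.2), y.2, ⟨he1, he2⟩, ?_, hse', ?_⟩
  · intro he0
    have h0 : (e : H →L[ℂ] H) = 0 := he0
    rw [h0] at hw'
    simp only [sub_zero] at hw'
    have h1 : ∀ ξ : H, ‖b (s ξ)‖ ^ 2 ≤ ‖b‖ ^ 2 / 2 * ‖s ξ‖ ^ 2 := by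
      intro ξ
      have h2 := inner_sq (w : H →L[ℂ] H) (s ξ)
      rw [← hw'] at h2
      have h3 : (((‖b‖ ^ 2 / 2 : ℝ) : ℂ) • s - (star b * b) * s) (s ξ) =
          ((‖b‖ ^ 2 / 2 : ℝ) : ℂ) • (s ξ) - (star b * b) (s ξ) := by
        have h4 : s (s ξ) = s ξ := congrArg (fun T : H →L[ℂ] H => T ξ) hs2
        change ((‖b‖ ^ 2 / 2 : ℝ) : ℂ) • (s (s ξ)) - (star b * b) (s (s ξ)) = _
        rw [h4]
      rw [h3, inner_sub_right, Complex.sub_re, inner_sq, inner_smul_right,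
        inner_self_eq_norm_sq_to_K] at h2
      have h5 : (((‖b‖ ^ 2 / 2 : ℝ) : ℂ) * ((‖s ξ‖ : ℂ)) ^ 2).re = ‖b‖ ^ 2 / 2 * ‖s ξ‖ ^ 2 := by
        have : (((‖b‖ ^ 2 / 2 : ℝ) : ℂ) * ((‖s ξ‖ : ℂ)) ^ 2) =
            ((‖b‖ ^ 2 / 2 * ‖s ξ‖ ^ 2 : ℝ) : ℂ) := by push_cast; ring
        rw [this, Complex.ofReal_re]
      have h6 := sq_nonneg ‖(w : H →L[ℂ] H) (s ξ)‖
      rw [← h2] at h6
      have h7 : 0 ≤ (((‖b‖ ^ 2 / 2 : ℝ) : ℂ) * ((‖s ξ‖ : ℂ)) ^ 2).re - ‖b (s ξ)‖ ^ 2 := h6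
      rw [h5] at h7
      linarith
    have hsn : ∀ ξ : H, ‖s ξ‖ ≤ ‖ξ‖ := by
      intro ξ
      have h2 : ‖s ξ‖ ^ 2 ≤ ‖s ξ‖ * ‖ξ‖ := by
        have h3 := inner_sq s ξ
        rw [hs1, hs2] at h3
        rw [← h3]
        refine (Complex.re_le_norm _).trans ((norm_inner_le_norm _ _).trans (le_of_eq (mul_comm _ _)))
      rcases eq_or_lt_of_le (norm_nonneg (s ξ)) with h0 | h0
      · rw [← h0]
        positivity
      · rw [sq] at h2
        exact le_of_mul_le_mul_left h2 h0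
    have h2 : ‖b‖ ≤ Real.sqrt (‖b‖ ^ 2 / 2) := by
      refine ContinuousLinearMap.opNorm_le_bound _ (Real.sqrt_nonneg _) fun ξ => ?_
      have h3 := h1 ξ
      have h4 : b (s ξ) = b ξ := congrArg (fun T : H →L[ℂ] H => T ξ) hbs
      rw [h4] at h3
      apply le_of_sq_le_sq _ (by positivity)
      rw [mul_pow, Real.sq_sqrt (by positivity)]
      refine h3.trans (mul_le_mul_of_nonneg_left ?_ (by positivity))
      exact pow_le_pow_left₀ (norm_nonneg _) (hsn ξ) 2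
    have h3 : ‖b‖ ^ 2 ≤ ‖b‖ ^ 2 / 2 := by
      have := pow_le_pow_left₀ (norm_nonneg _) h2 2
      rwa [Real.sq_sqrt (by positivity)] at this
    nlinarith
  · have h1 : star (b * (1 - (e : H →L[ℂ] H))) * (b * (1 - e)) =
        (star b * b) * (1 - e) := by
      rw [star_mul, star_sub, star_one, he1]
      have h2 : (1 - (e : H →L[ℂ] H)) * star b * (b * (1 - e)) =
          (1 - e) * (star b * b) * (1 - e) := by simp only [mul_assoc]
      rw [h2]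
      have h3 : (1 - (e : H →L[ℂ] H)) * (star b * b) = (star b * b) * (1 - e) := by
        rw [sub_mul, mul_sub, one_mul, mul_one, hea']
      rw [h3, mul_assoc]
      congr 1
      rw [sub_mul, one_mul, mul_sub, mul_one, he2, sub_self, sub_zero]
    rw [h1, ← hy', mul_sub, mul_one]
    abel

theorem wlim {ι : Type} (𝒰 : Ultrafilter ι) (T : ι → (H →L[ℂ] H)) (C : ℝ) (hT : ∀ i, ‖T i‖ ≤ C) :
    ∃ S : H →L[ℂ] H, ‖S‖ ≤ C ∧ ∀ ξ η : H, Tendsto (fun i => ⟪η, T i ξ⟫_ℂ) 𝒰 (𝓝 ⟪η, S ξ⟫_ℂ) := by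
  obtain ⟨S, hS, hS'⟩ := H744R2.KZ.prove_W_lim H ι 𝒰 T C hT
  exact ⟨S, hS, fun ξ η => hS' η ξ⟩

/-- Uniqueness of weak limits. -/
theorem wlim_unique {ι : Type} (l : Filter ι) [l.NeBot] (T : ι → (H →L[ℂ] H)) (S S' : H →L[ℂ] H)
    (h : ∀ ξ η : H, Tendsto (fun i => ⟪η, T i ξ⟫_ℂ) l (𝓝 ⟪η, S ξ⟫_ℂ))
    (h' : ∀ ξ η : H, Tendsto (fun i => ⟪η, T i ξ⟫_ℂ) l (𝓝 ⟪η, S' ξ⟫_ℂ)) : S = S' := by
  refine ContinuousLinearMap.ext fun ξ => ext_inner_left ℂ fun η => ?_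
  exact tendsto_nhds_unique (h ξ η) (h' ξ η)

/-- Weak limits and multiplication from the left. -/
theorem wlim_left {ι : Type} (l : Filter ι) (T : ι → (H →L[ℂ] H)) (S a : H →L[ℂ] H)
    (h : ∀ ξ η : H, Tendsto (fun i => ⟪η, T i ξ⟫_ℂ) l (𝓝 ⟪η, S ξ⟫_ℂ)) :
    ∀ ξ η : H, Tendsto (fun i => ⟪η, (a * T i) ξ⟫_ℂ) l (𝓝 ⟪η, (a * S) ξ⟫_ℂ) := by
  intro ξ η
  have h1 := h ξ (star a η)
  have e : ∀ R : H →L[ℂ] H, ⟪η, (a * R) ξ⟫_ℂ = ⟪star a η, R ξ⟫_ℂ := fun R => by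
    rw [← inner_star]
    rfl
  simp only [e]
  exact h1

theorem wlim_right {ι : Type} (l : Filter ι) (T : ι → (H →L[ℂ] H)) (S a : H →L[ℂ] H)
    (h : ∀ ξ η : H, Tendsto (fun i => ⟪η, T i ξ⟫_ℂ) l (𝓝 ⟪η, S ξ⟫_ℂ)) :
    ∀ ξ η : H, Tendsto (fun i => ⟪η, (T i * a) ξ⟫_ℂ) l (𝓝 ⟪η, (S * a) ξ⟫_ℂ) :=
  fun ξ η => h (a ξ) η

theorem isPr_norm_le {p : H →L[ℂ] H} (hp : IsPr p) (ξ : H) : ‖p ξ‖ ≤ ‖ξ‖ := by
  obtain ⟨hs1, hs2⟩ := hp
  have h2 : ‖p ξ‖ ^ 2 ≤ ‖p ξ‖ * ‖ξ‖ := by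
    have h3 := inner_sq p ξ
    rw [hs1, hs2] at h3
    rw [← h3]
    refine (Complex.re_le_norm _).trans ((norm_inner_le_norm _ _).trans (le_of_eq (mul_comm _ _)))
  rcases eq_or_lt_of_le (norm_nonneg (p ξ)) with h0 | h0
  · rw [← h0]
    positivity
  · rw [sq] at h2
    exact le_of_mul_le_mul_left h2 h0

theorem isPr_norm {p : H →L[ℂ] H} (hp : IsPr p) : ‖p‖ ≤ 1 :=
  ContinuousLinearMap.opNorm_le_bound _ zero_le_one fun ξ => by
    rw [one_mul]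
    exact isPr_norm_le hp ξ

/-- Sums of orthogonal projections. -/
theorem isPr_sum {ι : Type} (q : ι → (H →L[ℂ] H)) (hq : ∀ i, IsPr (q i))
    (ho : ∀ i j, i ≠ j → q i * q j = 0) (F : Finset ι) :
    IsPr (∑ i ∈ F, q i) ∧ ∀ j ∈ F, (∑ i ∈ F, q i) * q j = q j := by
  classical
  have h1 : ∀ j ∈ F, (∑ i ∈ F, q i) * q j = q j := by
    intro j hj
    rw [Finset.sum_mul, Finset.sum_eq_single j]
    · exact (hq j).2
    · intro i _ hij
      exact ho i j hij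
    · intro h
      exact absurd hj h
  refine ⟨⟨?_, ?_⟩, h1⟩
  · rw [star_sum]
    exact Finset.sum_congr rfl fun i _ => (hq i).1
  · rw [Finset.mul_sum]
    exact Finset.sum_congr rfl h1

/-- The finite sums of a family of orthogonal projections converge weakly to the projection onto the
closed span of the ranges. -/
theorem isPr_lim {ι : Type} (q : ι → (H →L[ℂ] H)) (hq : ∀ i, IsPr (q i))
    (ho : ∀ i j, i ≠ j → q i * q j = 0) (P : H →L[ℂ] H) (hP : ∀ i, P * q i = q i)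
    (hPs : star P = P)
    (hP' : ∀ y : H →L[ℂ] H, (∀ i, y * q i = 0) → y * P = 0)
    (𝒰 : Ultrafilter (Finset ι)) (h𝒰 : (𝒰 : Filter (Finset ι)) ≤ atTop) :
    ∀ ξ η : H, Tendsto (fun F : Finset ι => ⟪η, (∑ i ∈ F, q i) ξ⟫_ℂ) 𝒰 (𝓝 ⟪η, P ξ⟫_ℂ) := by
  obtain ⟨S, hS, hS'⟩ := wlim 𝒰 (fun F : Finset ι => ∑ i ∈ F, q i) 1
    fun F => isPr_norm (isPr_sum q hq ho F).1
  have h1 : ∀ i, S * q i = q i := by
    intro i
    refine wlim_unique (𝒰 : Filter (Finset ι)) (fun F : Finset ι => (∑ i ∈ F, q i) * q i) _ _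
      (wlim_right _ _ _ _ hS') fun ξ η => ?_
    refine tendsto_const_nhds.congr' ?_
    have h2 : ∀ᶠ F : Finset ι in 𝒰, i ∈ F := h𝒰 (eventually_ge_atTop {i} |>.mono fun F hF => by
      exact Finset.singleton_subset_iff.1 hF)
    filter_upwards [h2] with F hF
    rw [(isPr_sum q hq ho F).2 i hF]
  have h2 : S * P = P := by
    have := hP' (S - 1) fun i => by rw [sub_mul, h1, one_mul, sub_self]
    rwa [sub_mul, one_mul, sub_eq_zero] at this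
  have h3 : S * P = S := by
    refine wlim_unique (𝒰 : Filter (Finset ι)) (fun F : Finset ι => (∑ i ∈ F, q i)) _ _ ?_ hS'
    have h4 := wlim_right _ _ _ P hS'
    have h5 : ∀ F : Finset ι, (∑ i ∈ F, q i) * P = ∑ i ∈ F, q i := by
      intro F
      rw [Finset.sum_mul]
      refine Finset.sum_congr rfl fun i _ => ?_
      have := congrArg star (hP i)
      rw [star_mul, (hq i).1, hPs] at this
      exact this
    simpa only [h5] using h4
  rw [← h2, h3]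
  exact hS'

end Pool.Agent.W26.WD
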