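import Mathlib
import Pool.Agent.W26.WD.Basic
import Pool.Agent.W26.WD.Spec
import Pool.Agent.H778R2.DP.Span

/-!
A normal conditional expectation onto an irreducible subalgebra is faithful.
-/

set_option autoImplicit false
open scoped InnerProductSpace ComplexOrder Topology
open Filter

noncomputable section

namespace Pool.Agent.W26.WD

open H759R2.Kad

variable {H : Type} [NormedAddCommGroup H] [InnerProductSpace ℂ H] [CompleteSpace H]

/-- Zorn's lemma for pairwise related families. -/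
theorem exists_max {α : Type} (G : α → Prop) (R : α → α → Prop) :
    ∃ S : Set α, (∀ a ∈ S, G a) ∧ (∀ a ∈ S, ∀ b ∈ S, a ≠ b → R a b) ∧
      ∀ a, G a → (∀ b ∈ S, R a b ∧ R b a) → a ∈ S := by
  obtain ⟨S, hS⟩ := zorn_subset
    {S : Set α | (∀ a ∈ S, G a) ∧ (∀ a ∈ S, ∀ b ∈ S, a ≠ b → R a b)} (by
      intro c hc hch
      refine ⟨⋃₀ c, ⟨?_, ?_⟩, fun s hs => Set.subset_sUnion_of_mem hs⟩
      · rintro a ⟨s, hs, ha⟩
        exact (hc hs).1 a ha
      · rintro a ⟨s, hs, ha⟩ b ⟨s', hs', hb⟩ hab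
        rcases hch.total hs hs' with h | h
        · exact (hc hs').2 a (h ha) b hb hab
        · exact (hc hs).2 a ha b (h hb) hab)
  refine ⟨S, hS.prop.1, hS.prop.2, fun a ha hab => ?_⟩
  have h1 : insert a S ∈ {S : Set α | (∀ a ∈ S, G a) ∧ (∀ a ∈ S, ∀ b ∈ S, a ≠ b → R a b)} := by
    refine ⟨?_, ?_⟩
    · rintro b (rfl | hb)
      · exact ha
      · exact hS.prop.1 b hb
    · rintro b (rfl | hb) d (rfl | hd) hbd
      · exact absurd rfl hbd
      · exact (hab d hd).1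
      · exact (hab b hb).2
      · exact hS.prop.2 b hb d hd hbd
  exact hS.le_of_ge h1 (Set.subset_insert a S) (Set.mem_insert a S)

/-- Continuous functional calculus stays inside. -/
theorem cfc_mem_vn (N : VonNeumannAlgebra H) {a : H →L[ℂ] H} (ha : a ∈ N) (hs : IsSelfAdjoint a)
    (f : ℝ → ℝ) : cfc f a ∈ N := by
  have hcc : N.commutant.commutant = N := VonNeumannAlgebra.commutant_commutant N
  rw [← hcc, VonNeumannAlgebra.mem_commutant_iff]
  intro t ht
  rw [VonNeumannAlgebra.mem_commutant_iff] at ht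
  have h1 : Commute a t := ht a ha
  exact (IsSelfAdjoint.commute_cfc hs h1 f).symm

/-- The defect of an operator. -/
theorem exists_defect (N : VonNeumannAlgebra H) {m : H →L[ℂ] H} (hm : m ∈ N) :
    ∃ r ∈ N, star r * r = ((‖m‖ ^ 2 : ℝ) : ℂ) • (1 : H →L[ℂ] H) - star m * m := by
  set a := star m * m with ha
  have hsa : IsSelfAdjoint a := IsSelfAdjoint.star_mul_self m
  have haN : a ∈ N := mul_mem (star_mem hm) hm
  have hna : ‖a‖ = ‖m‖ ^ 2 := by rw [ha, CStarRing.norm_star_mul_self, sq]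
  refine ⟨cfc (fun t : ℝ => Real.sqrt (‖m‖ ^ 2 - t)) a, cfc_mem_vn N haN hsa _, ?_⟩
  have h1 : star (cfc (fun t : ℝ => Real.sqrt (‖m‖ ^ 2 - t)) a) =
      cfc (fun t : ℝ => Real.sqrt (‖m‖ ^ 2 - t)) a :=
    (cfc_predicate (R := ℝ) (fun t : ℝ => Real.sqrt (‖m‖ ^ 2 - t)) a : IsSelfAdjoint _)
  rw [h1, ← cfc_mul _ _ a (by fun_prop) (by fun_prop)]
  have h2 : cfc (fun t : ℝ => Real.sqrt (‖m‖ ^ 2 - t) * Real.sqrt (‖m‖ ^ 2 - t)) a =
      cfc (fun t : ℝ => ‖m‖ ^ 2 - t) a := by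
    apply cfc_congr
    intro t ht
    have h3 : ‖t‖ ≤ ‖a‖ := by
      rcases subsingleton_or_nontrivial H with hs | hs
      · haveI : Subsingleton (H →L[ℂ] H) := ⟨fun S T => ContinuousLinearMap.ext fun x =>
          Subsingleton.elim _ _⟩
        rw [spectrum.of_subsingleton] at ht
        exact ht.elim
      · exact spectrum.norm_le_norm_of_mem ht
    have h4 : t ≤ ‖m‖ ^ 2 := by
      rw [← hna]
      exact (le_abs_self t).trans h3
    exact Real.mul_self_sqrt (by linarith)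
  rw [h2, cfc_sub (fun _ : ℝ => ‖m‖ ^ 2) (fun t : ℝ => t) a (by fun_prop) (by fun_prop),
    cfc_const _ a hsa, cfc_id' ℝ a hsa, Algebra.algebraMap_eq_smul_one, Complex.coe_smul]

theorem pos_eq_zero {T : H →L[ℂ] H} (hT : T.IsPositive) (h : ∀ ξ : H, (⟪ξ, T ξ⟫_ℂ).re = 0) :
    T = 0 := by
  have h1 : ∀ ξ : H, ⟪(T : H →ₗ[ℂ] H) ξ, ξ⟫_ℂ = 0 := by
    intro ξ
    have h2 := hT.inner_nonneg_right ξ
    have h3 := (Complex.le_def.1 h2).2
    have h4 : ⟪ξ, T ξ⟫_ℂ = 0 := Complex.ext (h ξ) h3.symm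
    have h5 : ⟪T ξ, ξ⟫_ℂ = 0 := by rw [← inner_conj_symm, h4, map_zero]
    exact h5
  have h2 := (inner_map_self_eq_zero (T : H →ₗ[ℂ] H)).1 h1
  ext ξ
  exact congrArg (fun S : H →ₗ[ℂ] H => S ξ) h2

namespace IsNormalExpectation

variable {N M : VonNeumannAlgebra H} {E : (H →L[ℂ] H) → (H →L[ℂ] H)}
  (hE : IsNormalExpectation N M E)

include hE

theorem sum {ι : Type} (F : Finset ι) (f : ι → (H →L[ℂ] H)) (hf : ∀ i, f i ∈ M) :
    E (∑ i ∈ F, f i) = ∑ i ∈ F, E (f i) := by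
  classical
  induction F using Finset.induction_on with
  | empty => simp [hE.zero]
  | insert a F ha ih =>
    rw [Finset.sum_insert ha, Finset.sum_insert ha,
      hE.add _ (hf a) _ (sum_mem fun i _ => hf i), ih]

theorem E_eq_zero {x : H →L[ℂ] H} (hx : x ∈ M) (h : ∀ ξ, Q E ξ x = 0) : E (star x * x) = 0 :=
  pos_eq_zero (hE.pos x hx) h

theorem Q_left (ξ : H) {m x : H →L[ℂ] H} (hm : m ∈ M) (hx : x ∈ M) :
    Q E ξ (m * x) ≤ ‖m‖ ^ 2 * Q E ξ x := by
  obtain ⟨r, hr, hr'⟩ := exists_defect M hm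
  have h1 : star (m * x) * (m * x) + star (r * x) * (r * x) =
      ((‖m‖ ^ 2 : ℝ) : ℂ) • (star x * x) := by
    have e1 : ∀ y : H →L[ℂ] H, star (y * x) * (y * x) = star x * (star y * y) * x := by
      intro y
      rw [star_mul]
      simp only [mul_assoc]
    rw [e1, e1, hr', mul_sub, sub_mul, mul_smul_comm, mul_one, smul_mul_assoc]
    abel
  have h2 := congrArg (fun T => (⟪ξ, E T ξ⟫_ℂ).re) h1
  have h3 : ∀ y : H →L[ℂ] H, y ∈ M → star (y * x) * (y * x) ∈ M := fun y hy =>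
    mul_mem (star_mem (mul_mem hy hx)) (mul_mem hy hx)
  simp only [hE.add _ (h3 m hm) _ (h3 r hr), add_apply, inner_add_right, Complex.add_re,
    hE.smul _ _ (mul_mem (star_mem hx) hx)] at h2
  have h4 : (⟪ξ, (((‖m‖ ^ 2 : ℝ) : ℂ) • E (star x * x)) ξ⟫_ℂ).re = ‖m‖ ^ 2 * Q E ξ x := by
    have e2 : (((‖m‖ ^ 2 : ℝ) : ℂ) • E (star x * x)) ξ =
      ((‖m‖ ^ 2 : ℝ) : ℂ) • (E (star x * x) ξ) := rfl
    rw [e2, inner_smul_right, Complex.re_ofReal_mul]
    rfl
  rw [h4] at h2
  have h5 : 0 ≤ (⟪ξ, E (star (r * x) * (r * x)) ξ⟫_ℂ).re := hE.Q_nonneg ξ (mul_mem hr hx)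
  have h6 : Q E ξ (m * x) = (⟪ξ, E (star (m * x) * (m * x)) ξ⟫_ℂ).re := rfl
  rw [h6]
  linarith

theorem Q_sub_le (ξ : H) {x y : H →L[ℂ] H} (hx : x ∈ M) (hy : y ∈ M) :
    Q E ξ (x - y) ≤ 2 * Q E ξ x + 2 * Q E ξ y := by
  have h1 := hE.Q_sub ξ hx hy
  have h2 := hE.Q_add ξ hx hy
  have h3 := hE.Q_nonneg ξ (add_mem hx hy)
  linarith

/-- A normal conditional expectation onto an irreducible subalgebra is faithful. -/
theorem faithful (hNM : ∀ a ∈ N, a ∈ M)
    (hirr : ∀ z ∈ M, (∀ y ∈ N, z * y = y * z) → ∃ c : ℂ, z = c • (1 : H →L[ℂ] H))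
    (h10 : (1 : H →L[ℂ] H) ≠ 0) {z : H →L[ℂ] H} (hz : z ∈ M) (hz0 : E (star z * z) = 0) :
    z = 0 := by
  classical
  obtain ⟨S, hS1, hS2, hS3⟩ := exists_max (fun q : H →L[ℂ] H => q ∈ M ∧ IsPr q ∧ q ≠ 0 ∧ E q = 0)
    (fun q q' => q * q' = 0)
  obtain ⟨P, hPM, hPp, hP1, hP2⟩ := H710R2.DP.dp_Vspan H M S fun v hv => (hS1 v hv).1
  -- the expectation of `P` vanishes
  have hEP : E P = 0 := by
    have hq : ∀ i : S, IsPr (i : H →L[ℂ] H) := fun i => (hS1 i i.2).2.1
    have ho : ∀ i j : S, i ≠ j → (i : H →L[ℂ] H) * j = 0 := fun i j hij =>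
      hS2 i i.2 j j.2 fun h => hij (Subtype.ext h)
    have h1 := isPr_lim (fun i : S => (i : H →L[ℂ] H)) hq ho P (fun i => hP1 i i.2) hPp.1
      (fun y hy => hP2 y fun v hv => hy ⟨v, hv⟩) (Ultrafilter.of atTop) (Ultrafilter.of_le _)
    have h2 := hE.normal (Finset S) (Ultrafilter.of atTop : Ultrafilter (Finset S))
      (fun F => ∑ i ∈ F, (i : H →L[ℂ] H)) P 1
      (fun F => ⟨sum_mem fun i _ => (hS1 i i.2).1, isPr_norm (isPr_sum _ hq ho F).1⟩) hPM h1
    have h3 : ∀ F : Finset S, E (∑ i ∈ F, (i : H →L[ℂ] H)) = 0 := by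
      intro F
      rw [hE.sum F (fun i : S => (i : H →L[ℂ] H)) fun i => (hS1 i i.2).1]
      exact Finset.sum_eq_zero fun i _ => (hS1 i i.2).2.2.2
    refine wlim_unique (Ultrafilter.of atTop : Ultrafilter (Finset S)).toFilter
      (fun F => E (∑ i ∈ F, (i : H →L[ℂ] H))) _ _ h2 fun ξ η => ?_
    simp only [h3]
    exact tendsto_const_nhds
  have hPs := hPp.1
  have hP0 : ∀ ξ, Q E ξ P = 0 := by
    intro ξ
    unfold Q
    rw [hPs, hPp.2, hEP]
    simp
  -- elements of the left kernel live below `P`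
  have key : ∀ w ∈ M, E (star w * w) = 0 → w * (1 - P) = 0 := by
    intro w hw hw0
    by_contra hne
    have h1P : (1 - P) ∈ M := sub_mem (one_mem M) hPM
    have hsp : IsPr (1 - P) := by
      refine ⟨by rw [star_sub, star_one, hPs], ?_⟩
      rw [sub_mul, one_mul, mul_sub, mul_one, hPp.2, sub_self, sub_zero]
    obtain ⟨q, hqM, t, r₁, r₂, ht, hr1, hr2, hqp, hq0, hsq, hsum⟩ :=
      spec_cut M h1P hsp (mul_mem hw h1P) hne (by rw [mul_assoc, hsp.2])
    have hq1 : ∀ ξ, Q E ξ q = 0 := by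
      intro ξ
      have e0 : Q E ξ (w * (1 - P)) ≤ 0 := by
        have e1 : w * (1 - P) = w - w * P := by rw [mul_sub, mul_one]
        rw [e1]
        refine (hE.Q_sub_le ξ hw (mul_mem hw hPM)).trans ?_
        have e2 := hE.Q_left ξ hw hPM
        rw [hP0, mul_zero] at e2
        have e3 : Q E ξ w = 0 := by
          unfold Q
          rw [hw0]
          simp
        linarith
      have e1 : Q E ξ (w * (1 - P)) = Q E ξ r₁ + Q E ξ r₂ + t * Q E ξ q := by
        have m1 : star r₁ * r₁ ∈ M := mul_mem (star_mem hr1) hr1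
        have m2 : star r₂ * r₂ ∈ M := mul_mem (star_mem hr2) hr2
        unfold Q
        rw [hsum, hE.add _ (add_mem m1 m2) _ (smul_mem_vn M _ hqM), hE.add _ m1 _ m2,
          hE.smul _ _ hqM, hqp.1, hqp.2]
        have e2 : ((t : ℂ) • E q) ξ = (t : ℂ) • (E q ξ) := rfl
        simp only [add_apply, inner_add_right, Complex.add_re]
        rw [e2, inner_smul_right, Complex.re_ofReal_mul]
      have e2 := hE.Q_nonneg ξ hr1
      have e3 := hE.Q_nonneg ξ hr2
      have e4 := hE.Q_nonneg ξ hqM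
      have e5 : t * Q E ξ q ≤ 0 := by linarith
      have e6 : Q E ξ q ≤ 0 := by
        by_contra hcon
        push Not at hcon
        have := mul_pos ht hcon
        linarith
      exact le_antisymm e6 e4
    have hEq : E q = 0 := by
      have := hE.E_eq_zero hqM hq1
      rwa [hqp.1, hqp.2] at this
    have hPq : P * q = 0 := by
      rw [← hsq, ← mul_assoc, mul_sub, mul_one, hPp.2, sub_self, zero_mul]
    have hqP : q * P = 0 := by
      have := congrArg star hPq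
      rwa [star_mul, hqp.1, hPs, star_zero] at this
    have hmem : q ∈ S := by
      refine hS3 q ⟨hqM, hqp, hq0, hEq⟩ fun v hv => ⟨?_, ?_⟩
      · rw [← hP1 v hv, ← mul_assoc, hqP, zero_mul]
      · have e1 : v * P = v := by
          have := congrArg star (hP1 v hv)
          rwa [star_mul, (hS1 v hv).2.1.1, hPs] at this
        rw [← e1, mul_assoc, hPq, mul_zero]
    have := hP1 q hmem
    rw [hPq] at this
    exact hq0 this.symm
  -- `P` commutes with `N`
  have hcomm : ∀ y ∈ N, P * y = y * P := by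
    have h1 : ∀ y ∈ N, P * y * (1 - P) = 0 := by
      intro y hy
      apply key _ (mul_mem hPM (hNM y hy))
      have e1 : star (P * y) * (P * y) = star y * P * y := by
        rw [star_mul, hPs]
        have : star y * P * (P * y) = star y * (P * P) * y := by simp only [mul_assoc]
        rw [this, hPp.2]
      rw [e1, hE.bimod _ (star_mem hy) _ hPM _ hy, hEP, mul_zero, zero_mul]
    intro y hy
    have h2 := h1 y hy
    have h3 := congrArg star (h1 (star y) (star_mem hy))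
    rw [star_mul, star_mul, star_star, star_sub, star_one, hPs, star_zero] at h3
    rw [mul_sub, mul_one, sub_eq_zero] at h2
    rw [sub_mul, one_mul, sub_eq_zero] at h3
    rw [h2, h3, mul_assoc]
  obtain ⟨c, hc⟩ := hirr P hPM hcomm
  have hc0 : c = 0 := by
    have h1 : E P = c • (1 : H →L[ℂ] H) := by
      rw [hc, hE.smul c 1 (one_mem M), hE.one]
    rw [hEP] at h1
    by_contra hcne
    exact (smul_ne_zero hcne h10) h1.symm
  have hPzero : P = 0 := by rw [hc, hc0, zero_smul]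
  have := key z hz hz0
  rwa [hPzero, sub_zero, mul_one] at this

end IsNormalExpectation

end Pool.Agent.W26.WD
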