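import Mathlib
import Pool.Agent.W26.WD.Basic
import Pool.Agent.W26.WD.Spec
import Pool.Agent.W26.WD.Faith
import Pool.Agent.H778R2.DP.Span
import Pool.Agent.H956R2.Kad4.Comp
import Pool.Agent.H720R2.Kad4.Join
import Pool.Agent.H85R2.Kad4.Polar
import Pool.Agent.H849R2.Kad4.F4
import Pool.Agent.H227R2.KZ.LSum

/-!
Every factor on a separable Hilbert space is exhausted by algebraically simple corners.
-/

set_option autoImplicit false
open scoped InnerProductSpace ComplexOrder Topology
open Filter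

noncomputable section

namespace Pool.Agent.W26.WD

open H759R2.Kad

variable {H : Type} [NormedAddCommGroup H] [InnerProductSpace ℂ H] [CompleteSpace H]

/-- In the corner of `p` every nonzero positive element is full. -/
def GFull (N : VonNeumannAlgebra H) (p : H →L[ℂ] H) : Prop :=
  ∀ b ∈ N, b ≠ 0 → b * p = b → ∃ (J : Type) (_ : Fintype J) (z : J → (H →L[ℂ] H)) (C : ℝ),
    0 ≤ C ∧ (∀ j, z j ∈ N) ∧ ∀ ξ : H, p ξ = ξ → ‖ξ‖ ^ 2 ≤ C * ∑ j, ‖b (z j ξ)‖ ^ 2

/-- `e` has infinitely many orthogonal equivalent subprojections. -/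
def IsInf (N : VonNeumannAlgebra H) (e : H →L[ℂ] H) : Prop :=
  ∃ (u : ℕ → (H →L[ℂ] H)) (e₀ : H →L[ℂ] H), IsPr e₀ ∧ e₀ ≠ 0 ∧ (∀ n, u n ∈ N) ∧
    (∀ n, star (u n) * u n = e₀) ∧ (∀ n, e * u n = u n) ∧ ∀ n m, n ≠ m → star (u n) * u m = 0

theorem op_ext_zero {T : H →L[ℂ] H} (h : star T * T = 0) : T = 0 := by
  have h1 : ‖T‖ * ‖T‖ = 0 := by rw [← CStarRing.norm_star_mul_self, h, norm_zero]
  exact norm_eq_zero.1 (mul_self_eq_zero.1 h1)

/-- If `v* v` is a projection then `v v* v = v`. -/
theorem pi_of_init {v p : H →L[ℂ] H} (h : star v * v = p) (hp : IsPr p) : v * p = v := by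
  have h1 : star (v * p - v) * (v * p - v) = 0 := by
    have e1 : star (v * p - v) * (v * p - v) =
        p * (star v * v) * p - p * (star v * v) - (star v * v) * p + star v * v := by
      rw [star_sub, star_mul, hp.1, sub_mul, mul_sub, mul_sub]
      simp only [mul_assoc]
      abel
    rw [e1, h, hp.2, hp.2]
    abel
  exact sub_eq_zero.1 (op_ext_zero h1)

/-- If `v v*` is a projection then `v v* v = v`. -/
theorem pi_of_final {v p : H →L[ℂ] H} (h : v * star v = p) (hp : IsPr p) : p * v = v := by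
  have h1 : star (star v) * star v = p := by rw [star_star, h]
  have h2 := congrArg star (pi_of_init h1 hp)
  rwa [star_mul, star_star, hp.1] at h2

theorem cut_norm {b r₁ r₂ q : H →L[ℂ] H} {t : ℝ} (hq : IsPr q)
    (h : star b * b = star r₁ * r₁ + star r₂ * r₂ + (t : ℂ) • q) (ξ : H) :
    t * ‖q ξ‖ ^ 2 ≤ ‖b ξ‖ ^ 2 := by
  have h1 := congrArg (fun T : H →L[ℂ] H => (⟪ξ, T ξ⟫_ℂ).re) h
  simp only [add_apply, inner_add_right, Complex.add_re, inner_sq] at h1
  have h2 : (⟪ξ, ((t : ℂ) • q) ξ⟫_ℂ).re = t * ‖q ξ‖ ^ 2 := by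
    have e1 : ((t : ℂ) • q) ξ = (t : ℂ) • (q ξ) := rfl
    rw [e1, inner_smul_right, Complex.re_ofReal_mul]
    have e2 := inner_sq q ξ
    rw [hq.1, hq.2] at e2
    rw [e2]
  rw [h2] at h1
  nlinarith [sq_nonneg ‖r₁ ξ‖, sq_nonneg ‖r₂ ξ‖]

theorem isPr_one : IsPr (1 : H →L[ℂ] H) := ⟨star_one _, one_mul _⟩

/-- Exhaustion of the unit by subprojections of projections equivalent to pieces of `e`. -/
theorem exhaust (N : VonNeumannAlgebra H) (hfac : IsFac N) {e : H →L[ℂ] H} (he : e ∈ N)
    (hep : IsPr e) (he0 : e ≠ 0) :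
    ∃ S : Set (H →L[ℂ] H), (∀ v ∈ S, v ∈ N ∧ v ≠ 0 ∧ IsPI v ∧ e * v = v) ∧
      (∀ v ∈ S, ∀ w ∈ S, v ≠ w → v * star w = 0) ∧
      ∀ y : H →L[ℂ] H, (∀ v ∈ S, y * star v = 0) → y = 0 := by
  obtain ⟨S, hS1, hS2, hS3⟩ := exists_max
    (fun v : H →L[ℂ] H => v ∈ N ∧ v ≠ 0 ∧ IsPI v ∧ e * v = v) (fun v w => v * star w = 0)
  refine ⟨S, hS1, hS2, ?_⟩
  obtain ⟨f, hfN, hfp, hf1, hf2⟩ := H710R2.DP.dp_Vspan H N (star '' S) (by
    rintro _ ⟨v, hv, rfl⟩
    exact star_mem (hS1 v hv).1)
  have hf1' : ∀ v ∈ S, f * star v = star v := fun v hv => hf1 _ ⟨v, hv, rfl⟩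
  have hvf : ∀ v ∈ S, v * f = v := by
    intro v hv
    have := congrArg star (hf1' v hv)
    rwa [star_mul, star_star, hfp.1] at this
  have h1 : (1 - f) = 0 := by
    by_contra hne
    have h1p : IsPr (1 - f) := by
      refine ⟨by rw [star_sub, star_one, hfp.1], ?_⟩
      rw [sub_mul, one_mul, mul_sub, mul_one, hfp.2, sub_self, sub_zero]
    have hgood : ∃ v ∈ N, v ≠ 0 ∧ IsPI v ∧ e * v = v ∧ v * (1 - f) = v := by
      obtain ⟨v, hv, hv' | hv'⟩ := prove5_comp prove5_join prove5_polar prove5_chain H N hfac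
        (1 - f) (sub_mem (one_mem N) hfN) e he h1p hep
      · refine ⟨v, hv, ?_, ?_, hv'.2, pi_of_init hv'.1 h1p⟩
        · rintro rfl
          rw [mul_zero] at hv'
          exact hne hv'.1.symm
        · change v * star v * v = v
          rw [mul_assoc, hv'.1]
          exact pi_of_init hv'.1 h1p
      · refine ⟨v, hv, ?_, ?_, pi_of_final hv'.1 hep, hv'.2⟩
        · rintro rfl
          rw [zero_mul] at hv'
          exact he0 hv'.1.symm
        · change v * star v * v = v
          rw [hv'.1]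
          exact pi_of_final hv'.1 hep
    obtain ⟨v, hv, hv0, hvpi, hev, hvf'⟩ := hgood
    have hmem : v ∈ S := by
      refine hS3 v ⟨hv, hv0, hvpi, hev⟩ fun w hw => ?_
      have e1 : v * star w = 0 := by
        rw [← hvf', mul_assoc, sub_mul, one_mul, hf1' w hw, sub_self, mul_zero]
      refine ⟨e1, ?_⟩
      have := congrArg star e1
      rwa [star_mul, star_star, star_zero] at this
    have e2 := hvf v hmem
    rw [mul_sub, mul_one, e2, sub_self] at hvf'
    exact hv0 hvf'.symm
  intro y hy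
  have h2 : y * f = 0 := hf2 y (by
    rintro _ ⟨v, hv, rfl⟩
    exact hy v hv)
  have h3 : f = 1 := (sub_eq_zero.1 h1).symm
  rwa [h3, mul_one] at h2

/-- Pairwise orthogonal families of nonzero operators are countable. -/
theorem orth_countable [TopologicalSpace.SeparableSpace H] (S : Set (H →L[ℂ] H))
    (h0 : ∀ v ∈ S, v ≠ 0) (h : ∀ v ∈ S, ∀ w ∈ S, v ≠ w → v * star w = 0) : S.Countable := by
  have h1 : ∀ v : S, ∃ ξ : H, ‖ξ‖ = 1 ∧ ∃ η : H, ξ = star (v : H →L[ℂ] H) η := by
    intro v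
    have hv : star (v : H →L[ℂ] H) ≠ 0 := fun h => h0 v v.2 (star_eq_zero.1 h)
    obtain ⟨η, hη⟩ : ∃ η, star (v : H →L[ℂ] H) η ≠ 0 := by
      by_contra hcon
      push Not at hcon
      exact hv (ContinuousLinearMap.ext fun x => by simpa using hcon x)
    refine ⟨((‖star (v : H →L[ℂ] H) η‖⁻¹ : ℝ) : ℂ) • star (v : H →L[ℂ] H) η, ?_,
      ((‖star (v : H →L[ℂ] H) η‖⁻¹ : ℝ) : ℂ) • η, by rw [map_smul]⟩
    rw [norm_smul, Complex.norm_real, norm_inv, norm_norm]
    exact inv_mul_cancel₀ (norm_ne_zero_iff.2 hη)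
  choose x hx hx' using h1
  have h2 : ∀ v w : S, v ≠ w → ⟪x v, x w⟫_ℂ = 0 := by
    intro v w hvw
    obtain ⟨η, hη⟩ := hx' v
    obtain ⟨ζ, hζ⟩ := hx' w
    have h3 := h v v.2 w w.2 fun h => hvw (Subtype.ext h)
    rw [hη, hζ, inner_star (star (w : H →L[ℂ] H)), star_star]
    have h4 := h w w.2 v v.2 fun h => hvw (Subtype.ext h.symm)
    have h5 : (w : H →L[ℂ] H) (star (v : H →L[ℂ] H) η) = 0 :=
      congrArg (fun T : H →L[ℂ] H => T η) h4
    rw [h5, inner_zero_left]
  have h3 : Pairwise (Function.onFun Disjoint fun v : S => Metric.ball (x v) (1 / 2)) := by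
    intro v w hvw
    rw [Function.onFun, Set.disjoint_left]
    intro y hy hy'
    rw [Metric.mem_ball] at hy hy'
    have h4 : dist (x v) (x w) < 1 := by
      calc dist (x v) (x w) ≤ dist (x v) y + dist y (x w) := dist_triangle _ _ _
        _ < 1 / 2 + 1 / 2 := by
          rw [dist_comm (x v) y]
          exact add_lt_add hy hy'
        _ = 1 := by norm_num
    rw [dist_eq_norm] at h4
    have h5 : ‖x v - x w‖ ^ 2 = 2 := by
      rw [@norm_sub_sq ℂ, h2 v w hvw, hx, hx]
      norm_num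
    nlinarith [norm_nonneg (x v - x w)]
  have h4 : Countable S := h3.countable_of_isOpen_disjoint (fun _ => Metric.isOpen_ball)
    fun v => ⟨x v, Metric.mem_ball_self (by norm_num)⟩
  exact Set.countable_coe_iff.1 h4

/-- A projection with infinitely many orthogonal equivalent subprojections dominates the unit. -/
theorem inf_full [TopologicalSpace.SeparableSpace H] (N : VonNeumannAlgebra H) (hfac : IsFac N)
    {e : H →L[ℂ] H} (h : IsInf N e) : ∃ w ∈ N, star w * w = 1 ∧ e * w = w := by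
  obtain ⟨u, e₀, hpr, he₀, hu, huu, heu, huo⟩ := h
  have he₀N : e₀ ∈ N := by rw [← huu 0]; exact mul_mem (star_mem (hu 0)) (hu 0)
  · obtain ⟨S, hS1, hS2, hS3⟩ := exhaust N hfac he₀N hpr he₀
    have hc : S.Countable := orth_countable S (fun v hv => (hS1 v hv).2.1) hS2
    have : Countable S := hc.to_subtype
    obtain ⟨g, hg⟩ := exists_injective_nat S
    have hvv : ∀ v : S, (v : H →L[ℂ] H) * star (v : H →L[ℂ] H) * v = v := fun v => (hS1 v v.2).2.2.1
    have hev : ∀ v : S, e₀ * (v : H →L[ℂ] H) = v := fun v => (hS1 v v.2).2.2.2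
    have haa : ∀ v : S, star (u (g v) * (v : H →L[ℂ] H)) * (u (g v) * v) = star (v : H →L[ℂ] H) * v := by
      intro v
      rw [star_mul]
      have e1 : star (v : H →L[ℂ] H) * star (u (g v)) * (u (g v) * v) =
        star (v : H →L[ℂ] H) * ((star (u (g v)) * u (g v)) * v) := by simp only [mul_assoc]
      rw [e1, huu, hev]
    obtain ⟨V, hV, hV1, hV2, hV3, hV4⟩ := H744R2.KZ.prove_L_sum H N S
      (fun v => u (g v) * (v : H →L[ℂ] H)) (fun v => star (v : H →L[ℂ] H) * v)
      (fun v => mul_mem (hu _) (hS1 v v.2).1)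
      (fun v => mul_mem (star_mem (hS1 v v.2).1) (hS1 v v.2).1)
      (fun v => by
        change (u (g v) * (v : H →L[ℂ] H)) * star (u (g v) * (v : H →L[ℂ] H)) *
          (u (g v) * (v : H →L[ℂ] H)) = _
        rw [mul_assoc, haa, mul_assoc, ← mul_assoc (v : H →L[ℂ] H), hvv])
      (fun v => by
        rw [haa, star_mul, star_star]
        have e1 : star (v : H →L[ℂ] H) * v * (star (v : H →L[ℂ] H) * v) =
          star (v : H →L[ℂ] H) * (v * star (v : H →L[ℂ] H) * v) := by simp only [mul_assoc]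
        rw [e1, hvv])
      (fun v w hvw => by
        have e1 : star (u (g v) * (v : H →L[ℂ] H)) * (u (g w) * w) =
          star (v : H →L[ℂ] H) * ((star (u (g v)) * u (g w)) * w) := by
          rw [star_mul]
          simp only [mul_assoc]
        rw [e1, huo _ _ fun h => hvw (hg h), zero_mul, mul_zero])
      (fun v w hvw => by
        have e0 := hS2 v v.2 w w.2 fun h => hvw (Subtype.ext h)
        have e1 : star (star (v : H →L[ℂ] H) * v) * (star (w : H →L[ℂ] H) * w) =
          star (v : H →L[ℂ] H) * ((v * star (w : H →L[ℂ] H)) * w) := by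
          rw [star_mul, star_star]
          simp only [mul_assoc]
        rw [e1, e0, zero_mul, mul_zero])
    refine ⟨V, hV, ?_, ?_⟩
    · have h1 := hS3 (star V * V - 1) fun v hv => by
        have e1 := hV1 ⟨v, hv⟩
        have e2 := hV2 ⟨v, hv⟩
        simp only at e1 e2
        have e3 : star v = (star v * v) * star v := by
          have := congrArg star (hvv ⟨v, hv⟩)
          simp only [star_mul, star_star] at this
          rw [mul_assoc]
          exact this.symm
        have e4 : (star V * V - 1) * (star v * v) = 0 := by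
          rw [sub_mul, one_mul, mul_assoc, e1, e2, sub_self]
        rw [e3, ← mul_assoc, e4, zero_mul]
      exact sub_eq_zero.1 h1
    · have h1 := hV4 (1 - e) fun v => by
        have e1 := heu (g v)
        rw [← mul_assoc, sub_mul, one_mul, e1, sub_self, zero_mul]
      rw [sub_mul, one_mul, sub_eq_zero] at h1
      exact h1.symm

/-- A projection without infinitely many orthogonal equivalent subprojections has a simple
corner. -/
theorem fin_full (N : VonNeumannAlgebra H) (hfac : IsFac N) {e : H →L[ℂ] H} (he : e ∈ N)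
    (hep : IsPr e) (h : ¬ IsInf N e) : GFull N e := by
  intro b hb hb0 hbe
  obtain ⟨f, hf, t, r₁, r₂, ht, -, -, hfp, hf0, hef, hsum⟩ := spec_cut N he hep hb hb0 hbe
  have hcut := cut_norm hfp hsum
  obtain ⟨S, hS1, hS2, hS3⟩ := exists_max
    (fun u : H →L[ℂ] H => u ∈ N ∧ star u * u = f ∧ e * u = u) (fun u v => star u * v = 0)
  have hfin : S.Finite := by
    by_contra hinf
    have hinf' : S.Infinite := hinf
    have : Infinite S := hinf'.to_subtype
    let g := Infinite.natEmbedding S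
    apply h
    refine ⟨fun n => (g n : H →L[ℂ] H), f, hfp, hf0, fun n => (hS1 _ (g n).2).1,
      fun n => (hS1 _ (g n).2).2.1, fun n => (hS1 _ (g n).2).2.2, fun n m hnm => ?_⟩
    exact hS2 _ (g n).2 _ (g m).2 fun h => hnm (g.injective (Subtype.ext h))
  have : Fintype S := hfin.fintype
  have huf : ∀ u ∈ S, u * f = u := fun u hu => pi_of_init (hS1 u hu).2.1 hfp
  set r : H →L[ℂ] H := e - ∑ u : S, (u : H →L[ℂ] H) * star (u : H →L[ℂ] H) with hr
  have hrN : r ∈ N := sub_mem he (sum_mem fun u _ => mul_mem (hS1 u u.2).1 (star_mem (hS1 u u.2).1))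
  have hsumu : ∀ v ∈ S, (∑ u : S, (u : H →L[ℂ] H) * star (u : H →L[ℂ] H)) * v = v := by
    intro v hv
    rw [Finset.sum_mul, Finset.sum_eq_single (⟨v, hv⟩ : S)]
    · rw [mul_assoc, (hS1 v hv).2.1, huf v hv]
    · intro u _ huv
      rw [mul_assoc, hS2 u u.2 v hv fun h => huv (Subtype.ext h), mul_zero]
    · intro h
      exact absurd (Finset.mem_univ _) h
  have hru : ∀ v ∈ S, r * v = 0 := by
    intro v hv
    rw [hr, sub_mul, hsumu v hv, (hS1 v hv).2.2, sub_self]
  have hrp : IsPr r := by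
    have hs : star r = r := by
      rw [hr, star_sub, hep.1, star_sum]
      congr 1
      refine Finset.sum_congr rfl fun u _ => ?_
      rw [star_mul, star_star]
    refine ⟨hs, ?_⟩
    have h1 : r * e = r := by
      have h2 : ∀ v ∈ S, star v * e = star v := by
        intro v hv
        have := congrArg star (hS1 v hv).2.2
        rwa [star_mul, hep.1] at this
      rw [hr, sub_mul, hep.2, Finset.sum_mul]
      congr 1
      refine Finset.sum_congr rfl fun u _ => ?_
      rw [mul_assoc, h2 u u.2]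
    have h2 : r * (∑ u : S, (u : H →L[ℂ] H) * star (u : H →L[ℂ] H)) = 0 := by
      rw [Finset.mul_sum]
      refine Finset.sum_eq_zero fun u _ => ?_
      rw [← mul_assoc, hru u u.2, zero_mul]
    calc r * r = r * (e - ∑ u : S, (u : H →L[ℂ] H) * star (u : H →L[ℂ] H)) := by rw [← hr]
      _ = r := by rw [mul_sub, h1, h2, sub_zero]
  have her : e * r = r := by
    have h1 : e * (∑ u : S, (u : H →L[ℂ] H) * star (u : H →L[ℂ] H)) =
        ∑ u : S, (u : H →L[ℂ] H) * star (u : H →L[ℂ] H) := by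
      rw [Finset.mul_sum]
      refine Finset.sum_congr rfl fun u _ => ?_
      rw [← mul_assoc, (hS1 u u.2).2.2]
    rw [hr, mul_sub, hep.2, h1]
  obtain ⟨v, hv, hv' | hv'⟩ := prove5_comp prove5_join prove5_polar prove5_chain H N hfac
    r hrN f hf hrp hfp
  · refine ⟨Option S, inferInstance, fun o => o.elim v fun u => star (u : H →L[ℂ] H), 1 / t,
      by positivity, ?_, ?_⟩
    · rintro (_ | u)
      · exact hv
      · exact star_mem (hS1 u u.2).1
    · intro ξ hξ
      rw [Fintype.sum_option]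
      simp only [Option.elim]
      have h1 : ‖ξ‖ ^ 2 = ‖v ξ‖ ^ 2 + ∑ u : S, ‖star (u : H →L[ℂ] H) ξ‖ ^ 2 := by
        have e1 : ‖ξ‖ ^ 2 = (⟪ξ, e ξ⟫_ℂ).re := by
          rw [hξ, inner_self_eq_norm_sq_to_K]
          norm_cast
        have e2 : e = star v * v + ∑ u : S, (u : H →L[ℂ] H) * star (u : H →L[ℂ] H) := by
          rw [hv'.1, hr, sub_add_cancel]
        rw [e1]
        nth_rewrite 1 [e2]
        rw [add_apply, inner_add_right, Complex.add_re, inner_sq]
        congr 1
        have e3 : (∑ u : S, (u : H →L[ℂ] H) * star (u : H →L[ℂ] H)) ξ =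
            ∑ u : S, ((u : H →L[ℂ] H) * star (u : H →L[ℂ] H)) ξ := by
          simp only [sum_apply]
        rw [e3, inner_sum, Complex.re_sum]
        refine Finset.sum_congr rfl fun u _ => ?_
        have := inner_sq (star (u : H →L[ℂ] H)) ξ
        rwa [star_star] at this
      have h2 : ∀ w : H →L[ℂ] H, f * w = w → ‖w ξ‖ ^ 2 ≤ 1 / t * ‖b (w ξ)‖ ^ 2 := by
        intro w hw
        have e1 := hcut (w ξ)
        have e2 : f (w ξ) = w ξ := congrArg (fun T : H →L[ℂ] H => T ξ) hw
        rw [e2] at e1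
        rw [one_div, inv_mul_eq_div, le_div_iff₀ ht]
        linarith
      rw [h1, mul_add, Finset.mul_sum]
      refine add_le_add (h2 v hv'.2) (Finset.sum_le_sum fun u _ => h2 _ ?_)
      have := congrArg star (huf u u.2)
      rwa [star_mul, hfp.1] at this
  · exfalso
    have hvv : star (star v) * star v = f := by rw [star_star, hv'.1]
    have hrv : r * star v = star v := by
      have := congrArg star hv'.2
      rwa [star_mul, hrp.1] at this
    have hvu : ∀ u ∈ S, v * u = 0 := by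
      intro u hu
      rw [← hv'.2, mul_assoc, hru u hu, mul_zero]
    have hmem : star v ∈ S := by
      refine hS3 _ ⟨star_mem hv, hvv, ?_⟩ fun u hu => ?_
      · rw [← hrv, ← mul_assoc, her]
      · have e1 : star (star v) * u = 0 := by rw [star_star]; exact hvu u hu
        refine ⟨e1, ?_⟩
        have := congrArg star e1
        rwa [star_mul, star_star, star_zero] at this
    have h1 := hru _ hmem
    rw [hrv] at h1
    rw [h1, star_zero, zero_mul] at hvv
    exact hf0 hvv.symm

/-- Corners exhausted by pieces of a simple corner are simple. -/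
theorem corner_full (N : VonNeumannAlgebra H) (hfac : IsFac N) {e : H →L[ℂ] H} (he : e ∈ N)
    (hep : IsPr e) (he0 : e ≠ 0) (h : GFull N e) {ι : Type} (F : Finset ι) (v : ι → (H →L[ℂ] H))
    (hv : ∀ i, v i ∈ N) (hev : ∀ i, e * v i = v i) : GFull N (∑ i ∈ F, star (v i) * v i) := by
  intro b hb hb0 _
  obtain ⟨q, hq, t, r₁, r₂, ht, -, -, hqp, hq0, -, hsum⟩ :=
    spec_cut N (one_mem N) isPr_one hb hb0 (mul_one b)
  have hcut := cut_norm hqp hsum
  obtain ⟨a, ha, ha0⟩ := prove5_join H N hfac e he q hq hep hqp he0 hq0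
  obtain ⟨J, hJ, z, C, hC, hz, hzC⟩ := h (q * a * e) (mul_mem (mul_mem hq ha) he) ha0
    (by rw [mul_assoc, hep.2])
  refine ⟨F × J, inferInstance, fun x => a * e * z x.2 * v x.1, C / t, by positivity, ?_, ?_⟩
  · intro x
    exact mul_mem (mul_mem (mul_mem ha he) (hz _)) (hv _)
  · intro ξ hξ
    have h1 : ‖ξ‖ ^ 2 = ∑ i : F, ‖v i ξ‖ ^ 2 := by
      have e1 : ‖ξ‖ ^ 2 = (⟪ξ, (∑ i ∈ F, star (v i) * v i) ξ⟫_ℂ).re := by
        rw [hξ, inner_self_eq_norm_sq_to_K]
        norm_cast
      have e3 : (∑ i ∈ F, star (v i) * v i) ξ = ∑ i ∈ F, (star (v i) * v i) ξ := by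
        simp only [sum_apply]
      rw [e1, e3, inner_sum, Complex.re_sum, ← Finset.sum_coe_sort F]
      refine Finset.sum_congr rfl fun i _ => ?_
      exact inner_sq _ _
    have h2 : ∀ i : F, ‖v i ξ‖ ^ 2 ≤ C / t * ∑ j, ‖b ((a * e * z j * v i) ξ)‖ ^ 2 := by
      intro i
      have e1 : e (v i ξ) = v i ξ := congrArg (fun T : H →L[ℂ] H => T ξ) (hev i)
      refine (hzC (v i ξ) e1).trans ?_
      rw [div_mul_eq_mul_div, le_div_iff₀ ht, mul_assoc]
      have e5 : (∑ j, ‖(q * a * e) (z j (v i ξ))‖ ^ 2) * t ≤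
          ∑ j, ‖b ((a * e * z j * v i) ξ)‖ ^ 2 := by
        rw [Finset.sum_mul]
        refine Finset.sum_le_sum fun j _ => ?_
        have e2 := hcut ((a * e * z j * v i) ξ)
        have e3 : (q * a * e) (z j (v i ξ)) = q ((a * e * z j * v i) ξ) := rfl
        rw [e3]
        linarith
      exact mul_le_mul_of_nonneg_left e5 hC
    rw [h1, Fintype.sum_prod_type, Finset.mul_sum]
    exact Finset.sum_le_sum fun i _ => h2 i

/-- Every factor on a separable space is exhausted by simple corners. -/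
theorem exists_net [TopologicalSpace.SeparableSpace H] (N : VonNeumannAlgebra H)
    (hfac : IsFac N) : ∃ (ι : Type) (q : ι → (H →L[ℂ] H)), (∀ i, q i ∈ N ∧ IsPr (q i)) ∧
      (∀ i j, i ≠ j → q i * q j = 0) ∧ (∀ y : H →L[ℂ] H, (∀ i, y * q i = 0) → y = 0) ∧
      ∀ F : Finset ι, GFull N (∑ i ∈ F, q i) := by
  by_cases hall : ∀ e ∈ N, IsPr e → e ≠ 0 → IsInf N e
  · refine ⟨Unit, fun _ => 1, fun _ => ⟨one_mem N, isPr_one⟩,
      fun i j hij => absurd (Subsingleton.elim i j) hij, fun y hy => by simpa using hy (), ?_⟩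
    intro F b hb hb0 _
    obtain ⟨q, hq, t, r₁, r₂, ht, -, -, hqp, hq0, -, hsum⟩ :=
      spec_cut N (one_mem N) isPr_one hb hb0 (mul_one b)
    have hcut := cut_norm hqp hsum
    obtain ⟨w, hw, hw1, hqw⟩ := inf_full N hfac (hall q hq hqp hq0)
    refine ⟨Unit, inferInstance, fun _ => w, 1 / t, by positivity, fun _ => hw, fun ξ _ => ?_⟩
    simp only [Finset.univ_unique, Finset.sum_const, Finset.card_singleton, one_smul]
    have e1 := hcut (w ξ)
    have e2 : q (w ξ) = w ξ := congrArg (fun T : H →L[ℂ] H => T ξ) hqw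
    have e3 : ‖w ξ‖ ^ 2 = ‖ξ‖ ^ 2 := by
      have := inner_sq w ξ
      rw [hw1] at this
      rw [← this]
      change (⟪ξ, ξ⟫_ℂ).re = _
      rw [inner_self_eq_norm_sq_to_K]
      norm_cast
    rw [e2, e3] at e1
    rw [one_div, inv_mul_eq_div, le_div_iff₀ ht]
    linarith
  · push Not at hall
    obtain ⟨e, he, hep, he0, hinf⟩ := hall
    have hfull := fin_full N hfac he hep hinf
    obtain ⟨S, hS1, hS2, hS3⟩ := exhaust N hfac he hep he0
    have hvv : ∀ v : S, (v : H →L[ℂ] H) * star (v : H →L[ℂ] H) * v = v := fun v => (hS1 v v.2).2.2.1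
    refine ⟨S, fun v => star (v : H →L[ℂ] H) * v, fun v => ⟨mul_mem (star_mem (hS1 v v.2).1)
      (hS1 v v.2).1, ?_, ?_⟩, ?_, ?_, ?_⟩
    · rw [star_mul, star_star]
    · have e1 : star (v : H →L[ℂ] H) * v * (star (v : H →L[ℂ] H) * v) =
        star (v : H →L[ℂ] H) * (v * star (v : H →L[ℂ] H) * v) := by simp only [mul_assoc]
      rw [e1, hvv]
    · intro v w hvw
      have e0 := hS2 v v.2 w w.2 fun h => hvw (Subtype.ext h)
      have e1 : (star (v : H →L[ℂ] H) * v) * (star (w : H →L[ℂ] H) * w) =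
        star (v : H →L[ℂ] H) * ((v * star (w : H →L[ℂ] H)) * w) := by simp only [mul_assoc]
      rw [e1, e0, zero_mul, mul_zero]
    · intro y hy
      refine hS3 y fun v hv => ?_
      have e3 : star v = (star v * v) * star v := by
        have := congrArg star (hvv ⟨v, hv⟩)
        simp only [star_mul, star_star] at this
        rw [mul_assoc]
        exact this.symm
      rw [e3, ← mul_assoc, hy ⟨v, hv⟩, zero_mul]
    · intro F
      exact corner_full N hfac he hep he0 hfull F (fun v : S => (v : H →L[ℂ] H))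
        (fun v => (hS1 v v.2).1) (fun v => (hS1 v v.2).2.2.2)

end Pool.Agent.W26.WD
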