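import Mathlib
import Pool.Agent.W26.WD.Basic

/-!
The weakly closed convex hull of the unitary orbit.
-/

set_option autoImplicit false
open scoped InnerProductSpace ComplexOrder Topology
open Filter

noncomputable section

namespace Pool.Agent.W26.WD

variable {H : Type} [NormedAddCommGroup H] [InnerProductSpace ℂ H] [CompleteSpace H]

/-- The convex hull of the unitary orbit. -/
def CC (N : VonNeumannAlgebra H) (x : H →L[ℂ] H) : Set (H →L[ℂ] H) :=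
  convexHull ℝ {T : H →L[ℂ] H | ∃ u ∈ unitary (H →L[ℂ] H), u ∈ N ∧ T = u * x * star u}

/-- The weak operator closure of the convex hull of the unitary orbit. -/
def KK (N : VonNeumannAlgebra H) (x : H →L[ℂ] H) : Set (H →L[ℂ] H) :=
  {T | ∀ (n : ℕ) (ξ η : Fin n → H) (ε : ℝ), 0 < ε → ∃ y ∈ CC N x,
    ∀ i : Fin n, ‖⟪η i, (y - T) (ξ i)⟫_ℂ‖ < ε}

variable {N M : VonNeumannAlgebra H} {x : H →L[ℂ] H}

theorem KK_self (N : VonNeumannAlgebra H) (x : H →L[ℂ] H) : x ∈ KK N x := by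
  intro n ξ η ε hε
  refine ⟨x, subset_convexHull ℝ _ ⟨1, one_mem _, one_mem N, by simp⟩, fun i => ?_⟩
  simpa using hε

theorem KK_convex : Convex ℝ (KK N x) := by
  intro S hS T hT a b ha hb hab n ξ η ε hε
  obtain ⟨y, hy, hy'⟩ := hS n ξ η ε hε
  obtain ⟨z, hz, hz'⟩ := hT n ξ η ε hε
  refine ⟨a • y + b • z, (convex_convexHull ℝ _) hy hz ha hb hab, fun i => ?_⟩
  have h1 : (a • y + b • z - (a • S + b • T)) (ξ i) =
      a • ((y - S) (ξ i)) + b • ((z - T) (ξ i)) := by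
    simp only [sub_apply, add_apply, smul_apply, smul_sub]
    abel
  rw [h1, inner_add_right, inner_smul_right_eq_smul, inner_smul_right_eq_smul]
  have h2 := hy' i
  have h3 := hz' i
  have h4 : ‖a • ⟪η i, (y - S) (ξ i)⟫_ℂ + b • ⟪η i, (z - T) (ξ i)⟫_ℂ‖ ≤
      a * ‖⟪η i, (y - S) (ξ i)⟫_ℂ‖ + b * ‖⟪η i, (z - T) (ξ i)⟫_ℂ‖ := by
    refine (norm_add_le _ _).trans ?_
    rw [norm_smul, norm_smul, Real.norm_of_nonneg ha, Real.norm_of_nonneg hb]
  refine h4.trans_lt ?_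
  rcases eq_or_lt_of_le ha with h0 | h0
  · rw [← h0] at hab ⊢
    have : b = 1 := by linarith
    rw [this]
    linarith
  · nlinarith

theorem CC_conj {T v : H →L[ℂ] H} (hT : T ∈ CC N x) (hv : v ∈ unitary (H →L[ℂ] H))
    (hvN : v ∈ N) : v * T * star v ∈ CC N x := by
  have h1 : CC N x ⊆ {T | v * T * star v ∈ CC N x} := by
    apply convexHull_min
    · rintro _ ⟨u, hu, huN, rfl⟩
      apply subset_convexHull
      refine ⟨v * u, mul_mem hv hu, mul_mem hvN huN, ?_⟩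
      rw [star_mul]
      simp only [mul_assoc]
    · intro S hS T hT a b ha hb hab
      change v * (a • S + b • T) * star v ∈ CC N x
      have h2 : v * (a • S + b • T) * star v = a • (v * S * star v) + b • (v * T * star v) := by
        rw [mul_add, add_mul, mul_smul_comm, mul_smul_comm, smul_mul_assoc, smul_mul_assoc]
      rw [h2]
      exact (convex_convexHull ℝ _) hS hT ha hb hab
  exact h1 hT

theorem KK_conj {T v : H →L[ℂ] H} (hT : T ∈ KK N x) (hv : v ∈ unitary (H →L[ℂ] H))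
    (hvN : v ∈ N) : v * T * star v ∈ KK N x := by
  intro n ξ η ε hε
  obtain ⟨y, hy, hy'⟩ := hT n (fun i => star v (ξ i)) (fun i => star v (η i)) ε hε
  refine ⟨v * y * star v, CC_conj hy hv hvN, fun i => ?_⟩
  have h1 : (v * y * star v - v * T * star v) (ξ i) = v ((y - T) (star v (ξ i))) := by
    have : v * y * star v - v * T * star v = v * (y - T) * star v := by
      rw [mul_sub, sub_mul]
    rw [this]
    rfl
  rw [h1, inner_star]
  exact hy' i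

theorem CC_mem (hNM : ∀ a ∈ N, a ∈ M) (hx : x ∈ M) {T : H →L[ℂ] H} (hT : T ∈ CC N x) : T ∈ M := by
  have h1 : CC N x ⊆ {T | T ∈ M} := by
    apply convexHull_min
    · rintro _ ⟨u, hu, huN, rfl⟩
      exact mul_mem (mul_mem (hNM u huN) hx) (star_mem (hNM u huN))
    · intro S hS T hT a b ha hb hab
      exact add_mem (rsmul_mem_vn M _ hS) (rsmul_mem_vn M _ hT)
  exact h1 hT

theorem CC_norm {T : H →L[ℂ] H} (hT : T ∈ CC N x) : ‖T‖ ≤ ‖x‖ := by
  have h1 : CC N x ⊆ Metric.closedBall 0 ‖x‖ := by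
    apply convexHull_min
    · rintro _ ⟨u, hu, huN, rfl⟩
      rw [mem_closedBall_zero_iff]
      rw [CStarRing.norm_mul_mem_unitary _ (Unitary.star_mem hu),
        CStarRing.norm_mem_unitary_mul _ hu]
    · exact convex_closedBall _ _
  exact mem_closedBall_zero_iff.1 (h1 hT)

theorem KK_norm {T : H →L[ℂ] H} (hT : T ∈ KK N x) : ‖T‖ ≤ ‖x‖ := by
  refine ContinuousLinearMap.opNorm_le_bound _ (norm_nonneg _) fun ξ => ?_
  have key : ∀ η : H, ‖⟪η, T ξ⟫_ℂ‖ ≤ ‖η‖ * (‖x‖ * ‖ξ‖) := by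
    intro η
    refine le_of_forall_pos_le_add fun ε hε => ?_
    obtain ⟨y, hy, hy'⟩ := hT 1 (fun _ => ξ) (fun _ => η) ε hε
    have h1 := hy' 0
    simp only [sub_apply, inner_sub_right] at h1
    have h2 : ‖⟪η, y ξ⟫_ℂ‖ ≤ ‖η‖ * (‖x‖ * ‖ξ‖) := by
      refine (norm_inner_le_norm _ _).trans ?_
      refine mul_le_mul_of_nonneg_left ?_ (norm_nonneg _)
      exact (y.le_opNorm ξ).trans (mul_le_mul_of_nonneg_right (CC_norm hy) (norm_nonneg _))
    have h3 : ⟪η, T ξ⟫_ℂ = ⟪η, y ξ⟫_ℂ - (⟪η, y ξ⟫_ℂ - ⟪η, T ξ⟫_ℂ) := by ring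
    rw [h3]
    refine (norm_sub_le _ _).trans ?_
    linarith
  have h1 := key (T ξ)
  rw [inner_self_eq_norm_sq_to_K] at h1
  have h2 : ‖((‖T ξ‖ : ℂ)) ^ 2‖ = ‖T ξ‖ ^ 2 := by
    rw [norm_pow, Complex.norm_real, norm_norm]
  have h3 : ‖T ξ‖ ^ 2 ≤ ‖T ξ‖ * (‖x‖ * ‖ξ‖) := by
    rw [← h2]
    exact h1
  rcases eq_or_lt_of_le (norm_nonneg (T ξ)) with h0 | h0
  · rw [← h0]
    positivity
  · rw [sq] at h3
    exact le_of_mul_le_mul_left h3 h0

theorem KK_mem (hNM : ∀ a ∈ N, a ∈ M) (hx : x ∈ M) {T : H →L[ℂ] H} (hT : T ∈ KK N x) : T ∈ M := by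
  have hcc : M.commutant.commutant = M := VonNeumannAlgebra.commutant_commutant M
  rw [← hcc, VonNeumannAlgebra.mem_commutant_iff]
  intro m hm
  rw [VonNeumannAlgebra.mem_commutant_iff] at hm
  refine ContinuousLinearMap.ext fun ξ => ?_
  have key : ∀ η : H, ⟪η, (m * T) ξ⟫_ℂ = ⟪η, (T * m) ξ⟫_ℂ := by
    intro η
    rw [← sub_eq_zero, ← norm_eq_zero]
    refine le_antisymm (le_of_forall_pos_le_add fun ε hε => ?_) (norm_nonneg _)
    obtain ⟨y, hy, hy'⟩ := hT 2 ![ξ, m ξ] ![star m η, η] (ε / 2) (by linarith)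
    have h1 := hy' 0
    have h2 := hy' 1
    simp only [Matrix.cons_val_zero, Matrix.cons_val_one, sub_apply] at h1 h2
    have h3 := hm y (CC_mem hNM hx hy)
    have h4 : ⟪η, (m * T) ξ⟫_ℂ - ⟪η, (T * m) ξ⟫_ℂ =
        ⟪η, y (m ξ) - T (m ξ)⟫_ℂ - ⟪star m η, y ξ - T ξ⟫_ℂ := by
      have e1 : (m * T) ξ = m (T ξ) := rfl
      have e2 : (T * m) ξ = T (m ξ) := rfl
      have e3 : m (y ξ) = y (m ξ) := (congrArg (fun S : H →L[ℂ] H => S ξ) h3).symm
      rw [inner_sub_right, inner_sub_right, e1, e2, inner_star m, ← inner_star m η (y ξ), e3]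
      ring
    rw [h4]
    refine (norm_sub_le _ _).trans ?_
    linarith
  exact ext_inner_left ℂ key

theorem KK_lim {ι : Type} (l : Filter ι) [l.NeBot] (T : ι → (H →L[ℂ] H)) (S : H →L[ℂ] H)
    (hT : ∀ i, T i ∈ KK N x)
    (hlim : ∀ ξ η : H, Tendsto (fun i => ⟪η, T i ξ⟫_ℂ) l (𝓝 ⟪η, S ξ⟫_ℂ)) : S ∈ KK N x := by
  intro n ξ η ε hε
  have h1 : ∀ᶠ i in l, ∀ j : Fin n, ‖⟪η j, T i (ξ j)⟫_ℂ - ⟪η j, S (ξ j)⟫_ℂ‖ < ε / 2 := by
    rw [Filter.eventually_all]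
    intro j
    have h2 := (hlim (ξ j) (η j)).eventually (Metric.ball_mem_nhds _ (half_pos hε))
    filter_upwards [h2] with i hi
    rwa [dist_eq_norm] at hi
  obtain ⟨i, hi⟩ := h1.exists
  obtain ⟨y, hy, hy'⟩ := hT i n ξ η (ε / 2) (half_pos hε)
  refine ⟨y, hy, fun j => ?_⟩
  have h2 := hi j
  have h3 := hy' j
  simp only [sub_apply, inner_sub_right] at h3 ⊢
  have h4 : ⟪η j, y (ξ j)⟫_ℂ - ⟪η j, S (ξ j)⟫_ℂ = (⟪η j, y (ξ j)⟫_ℂ - ⟪η j, T i (ξ j)⟫_ℂ) +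
      (⟪η j, T i (ξ j)⟫_ℂ - ⟪η j, S (ξ j)⟫_ℂ) := by ring
  rw [h4]
  refine (norm_add_le _ _).trans_lt ?_
  linarith

end Pool.Agent.W26.WD
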