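import Mathlib
import Pool.Agent.W26.WD.Basic
import Pool.Agent.W26.WD.Hull
import Pool.Agent.W26.WD.Spec
import Pool.Agent.W26.WD.Faith
import Pool.Agent.W26.WD.Full

/-!
From general elements to unitaries, and the minimisation argument.
-/

set_option autoImplicit false
open scoped InnerProductSpace ComplexOrder Topology
open Filter

noncomputable section

namespace Pool.Agent.W26.WD

open H759R2.Kad

variable {H : Type} [NormedAddCommGroup H] [InnerProductSpace ℂ H] [CompleteSpace H]

/-- A unitary of `N` commuting with `p`. -/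
def UP (N : VonNeumannAlgebra H) (p u : H →L[ℂ] H) : Prop :=
  u ∈ N ∧ u ∈ unitary (H →L[ℂ] H) ∧ u * p = p * u

/-- Fullness by unitaries commuting with `p`. -/
def UFull (N : VonNeumannAlgebra H) (p : H →L[ℂ] H) : Prop :=
  ∀ b ∈ N, b ≠ 0 → b * p = b → ∃ (J : Type) (_ : Fintype J) (u : J → (H →L[ℂ] H)) (C : ℝ),
    0 ≤ C ∧ (∀ j, UP N p (u j)) ∧ ∀ ξ : H, p ξ = ξ → ‖ξ‖ ^ 2 ≤ C * ∑ j, ‖b (u j ξ)‖ ^ 2

theorem UP.star {N : VonNeumannAlgebra H} {p u : H →L[ℂ] H} (h : UP N p u) (hp : IsPr p) :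
    UP N p (star u) := by
  refine ⟨star_mem h.1, Unitary.star_mem h.2.1, ?_⟩
  have := congrArg Star.star h.2.2
  rw [star_mul, star_mul, hp.1] at this
  exact this.symm

theorem spec_le {a : H →L[ℂ] H} {t : ℝ} (ht : t ∈ spectrum ℝ a) : ‖t‖ ≤ ‖a‖ := by
  rcases subsingleton_or_nontrivial H with hs | hs
  · have : Subsingleton (H →L[ℂ] H) := ⟨fun S T => ContinuousLinearMap.ext fun x =>
      Subsingleton.elim _ _⟩
    rw [spectrum.of_subsingleton] at ht
    exact ht.elim
  · exact spectrum.norm_le_norm_of_mem ht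

theorem exists_unit (N : VonNeumannAlgebra H) {h p : H →L[ℂ] H} (hh : h ∈ N) (hs : star h = h)
    (hn : ‖h‖ ≤ 1) (hp : h * p = p * h) :
    ∃ u, UP N p u ∧ h = (1 / 2 : ℂ) • u + (1 / 2 : ℂ) • star u := by
  have hsa : IsSelfAdjoint h := hs
  set s : H →L[ℂ] H := cfc (fun t : ℝ => Real.sqrt (1 - t ^ 2)) h with hsdef
  have hss : star s = s :=
    (cfc_predicate (R := ℝ) (fun t : ℝ => Real.sqrt (1 - t ^ 2)) h : IsSelfAdjoint _)
  have hsN : s ∈ N := cfc_mem_vn N hh hsa _
  have hhs : h * s = s * h := (IsSelfAdjoint.commute_cfc hsa (Commute.refl h) _).symm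
  have hsp : s * p = p * s := IsSelfAdjoint.commute_cfc hsa (b := p) hp _
  have hsq : h * h + s * s = 1 := by
    have h1 : s * s = cfc (fun t : ℝ => 1 - t ^ 2) h := by
      rw [hsdef, ← cfc_mul _ _ h (by fun_prop) (by fun_prop)]
      apply cfc_congr
      intro t ht
      have h3 := spec_le ht
      have h4 : |t| ≤ 1 := h3.trans hn
      exact Real.mul_self_sqrt (by nlinarith [sq_abs t, abs_nonneg t])
    rw [h1, cfc_sub (fun _ : ℝ => 1) (fun t : ℝ => t ^ 2) h (by fun_prop) (by fun_prop),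
      cfc_pow_id (R := ℝ) h 2 hsa, cfc_const _ h hsa, Algebra.algebraMap_eq_smul_one, one_smul, sq]
    abel
  refine ⟨h + Complex.I • s, ⟨add_mem hh (smul_mem_vn N _ hsN), ?_, ?_⟩, ?_⟩
  · have h1 : star (h + Complex.I • s) = h - Complex.I • s := by
      rw [star_add, star_smul, hs, hss]
      simp [sub_eq_add_neg]
    have h2 : Complex.I • s * (Complex.I • s) = - (s * s) := by
      rw [smul_mul_smul_comm, Complex.I_mul_I, neg_one_smul]
    rw [Unitary.mem_iff, h1]
    constructor
    · rw [sub_mul, mul_add, mul_add, h2, mul_smul_comm, smul_mul_assoc, hhs, ← hsq]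
      abel
    · rw [mul_sub, add_mul, add_mul, h2, mul_smul_comm, smul_mul_assoc, hhs, ← hsq]
      abel
  · rw [add_mul, mul_add, smul_mul_assoc, mul_smul_comm, hp, hsp]
  · have h1 : star (h + Complex.I • s) = h - Complex.I • s := by
      rw [star_add, star_smul, hs, hss]
      simp [sub_eq_add_neg]
    rw [h1, ← smul_add]
    have h2 : h + Complex.I • s + (h - Complex.I • s) = (2 : ℂ) • h := by
      rw [two_smul]
      abel
    rw [h2, smul_smul]
    norm_num

theorem four_units (N : VonNeumannAlgebra H) {k p : H →L[ℂ] H} (hk : k ∈ N)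
    (hp : IsPr p) (hpk : k * p = p * k) :
    ∃ (u : Fin 4 → (H →L[ℂ] H)) (c : Fin 4 → ℂ), (∀ l, UP N p (u l)) ∧ k = ∑ l, c l • u l := by
  set R : ℝ := ‖k‖ + 1 with hR
  have hR0 : 0 < R := by positivity
  have hkR : ‖k‖ ≤ R := by linarith
  have hpk' : star k * p = p * star k := by
    have := congrArg star hpk
    rw [star_mul, star_mul, hp.1] at this
    exact this.symm
  set c1 : ℂ := ((1 / (2 * R) : ℝ) : ℂ) with hc1
  have hc1s : star c1 = c1 := Complex.conj_ofReal _
  have hc1n : ‖c1‖ = 1 / (2 * R) := by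
    rw [hc1, Complex.norm_real, Real.norm_of_nonneg (by positivity)]
  have hcr : (R : ℂ) * c1 = 1 / 2 := by
    rw [hc1]
    push_cast
    have : (R : ℂ) ≠ 0 := Complex.ofReal_ne_zero.2 hR0.ne'
    field_simp
  obtain ⟨u1, hu1, he1⟩ := exists_unit N (h := c1 • (k + star k)) (p := p)
    (smul_mem_vn N _ (add_mem hk (star_mem hk))) (by
      rw [star_smul, star_add, star_star, hc1s, add_comm]) (by
      rw [norm_smul, hc1n]
      have h1 : ‖k + star k‖ ≤ 2 * R := by
        refine (norm_add_le _ _).trans ?_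
        rw [norm_star]
        linarith
      rw [one_div, inv_mul_le_iff₀ (by positivity)]
      linarith) (by
      rw [smul_mul_assoc, mul_smul_comm, add_mul, mul_add, hpk, hpk'])
  obtain ⟨u2, hu2, he2⟩ := exists_unit N (h := (Complex.I * c1) • (star k - k)) (p := p)
    (smul_mem_vn N _ (sub_mem (star_mem hk) hk)) (by
      rw [star_smul, star_sub, star_star, star_mul, hc1s]
      have h1 : star Complex.I = - Complex.I := Complex.conj_I
      rw [h1, mul_neg, neg_smul, ← smul_neg, neg_sub, mul_comm]) (by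
      rw [norm_smul, norm_mul, Complex.norm_I, one_mul, hc1n]
      have h1 : ‖star k - k‖ ≤ 2 * R := by
        refine (norm_sub_le _ _).trans ?_
        rw [norm_star]
        linarith
      rw [one_div, inv_mul_le_iff₀ (by positivity)]
      linarith) (by
      rw [smul_mul_assoc, mul_smul_comm, sub_mul, mul_sub, hpk, hpk'])
  have hk2 : k = (R : ℂ) • (c1 • (k + star k)) +
      (Complex.I * R) • ((Complex.I * c1) • (star k - k)) := by
    rw [smul_smul, smul_smul, hcr]
    have h1 : Complex.I * (R : ℂ) * (Complex.I * c1) = - (1 / 2) := by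
      have : Complex.I * (R : ℂ) * (Complex.I * c1) = (Complex.I * Complex.I) * ((R : ℂ) * c1) := by
        ring
      rw [this, hcr, Complex.I_mul_I]
      ring
    rw [h1, smul_add, smul_sub, neg_smul, neg_smul]
    have h2 : (1 / 2 : ℂ) • k + (1 / 2 : ℂ) • k = k := by
      rw [← add_smul]
      norm_num
    nth_rewrite 1 [← h2]
    abel
  refine ⟨![u1, star u1, u2, star u2],
    ![(R : ℂ) * (1 / 2), (R : ℂ) * (1 / 2), Complex.I * R * (1 / 2), Complex.I * R * (1 / 2)],
    ?_, ?_⟩
  · intro l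
    fin_cases l
    · exact hu1
    · exact hu1.star hp
    · exact hu2
    · exact hu2.star hp
  · rw [Fin.sum_univ_four]
    simp only [Matrix.cons_val_zero, Matrix.cons_val_one, Matrix.cons_val]
    nth_rewrite 1 [hk2]
    rw [he1, he2, smul_add, smul_add, smul_smul, smul_smul, smul_smul, smul_smul]
    abel

theorem ufull_of_gfull (N : VonNeumannAlgebra H) {p : H →L[ℂ] H} (hpN : p ∈ N) (hp : IsPr p)
    (h : GFull N p) : UFull N p := by
  intro b hb hb0 hbp
  obtain ⟨J, hJ, z, C, hC, hz, hzC⟩ := h b hb hb0 hbp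
  have hk : ∀ j, (p * z j * p) * p = p * (p * z j * p) := by
    intro j
    rw [mul_assoc, hp.2, ← mul_assoc, ← mul_assoc, hp.2]
  choose u c hu hc using fun j => four_units N (mul_mem (mul_mem hpN (hz j)) hpN) hp (hk j)
  refine ⟨J × Fin 4, inferInstance, fun x => u x.1 x.2, C * ∑ j, ∑ l, ‖c j l‖ ^ 2, by positivity,
    fun x => hu x.1 x.2, fun ξ hξ => (hzC ξ hξ).trans ?_⟩
  rw [mul_assoc]
  refine mul_le_mul_of_nonneg_left ?_ hC
  rw [Fintype.sum_prod_type, Finset.mul_sum]
  refine Finset.sum_le_sum fun j _ => ?_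
  have e1 : b (z j ξ) = ∑ l, c j l • b (u j l ξ) := by
    have e2 : b (z j ξ) = b ((p * z j * p) ξ) := by
      have e3 : (p * z j * p) ξ = p (z j ξ) := by
        change p (z j (p ξ)) = _
        rw [hξ]
      rw [e3]
      exact (congrArg (fun T : H →L[ℂ] H => T (z j ξ)) hbp).symm
    rw [e2, hc j, sum_apply, map_sum]
    refine Finset.sum_congr rfl fun l _ => ?_
    rw [smul_apply, map_smul]
  have e2 : ‖b (z j ξ)‖ ^ 2 ≤ (∑ l, ‖c j l‖ ^ 2) * ∑ l, ‖b (u j l ξ)‖ ^ 2 := by
    rw [e1]
    refine (pow_le_pow_left₀ (norm_nonneg _) (norm_sum_le _ _) 2).trans ?_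
    simp only [norm_smul]
    exact Finset.sum_mul_sq_le_sq_mul_sq _ _ _
  refine e2.trans (mul_le_mul_of_nonneg_right ?_ (by positivity))
  exact Finset.single_le_sum (f := fun j => ∑ l, ‖c j l‖ ^ 2) (fun j _ => by positivity)
    (Finset.mem_univ j)

end Pool.Agent.W26.WD
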