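import Mathlib
import Pool.Agent.W26.WD.Basic
import Pool.Agent.W26.WD.Hull
import Pool.Agent.W26.WD.Spec
import Pool.Agent.W26.WD.Faith
import Pool.Agent.W26.WD.Full
import Pool.Agent.W26.WD.Uni

/-!
The minimisation argument in a simple corner.
-/

set_option autoImplicit false
open scoped InnerProductSpace ComplexOrder Topology
open Filter

noncomputable section

namespace Pool.Agent.W26.WD

open H759R2.Kad

variable {H : Type} [NormedAddCommGroup H] [InnerProductSpace ℂ H] [CompleteSpace H]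

theorem exists_sqrt (N : VonNeumannAlgebra H) {a : H →L[ℂ] H} (ha : a ∈ N) (hp : a.IsPositive) :
    ∃ s ∈ N, star s * s = a := by
  have h0 : 0 ≤ a := (ContinuousLinearMap.nonneg_iff_isPositive a).2 hp
  have hsa : IsSelfAdjoint a := IsSelfAdjoint.of_nonneg h0
  refine ⟨cfc Real.sqrt a, cfc_mem_vn N ha hsa _, ?_⟩
  have h1 : star (cfc Real.sqrt a) = cfc Real.sqrt a :=
    (cfc_predicate (R := ℝ) Real.sqrt a : IsSelfAdjoint _)
  rw [h1, ← cfc_mul _ _ a (by fun_prop) (by fun_prop)]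
  have h2 : cfc (fun t : ℝ => Real.sqrt t * Real.sqrt t) a = cfc (fun t : ℝ => t) a := by
    apply cfc_congr
    intro t ht
    exact Real.mul_self_sqrt (spectrum_nonneg_of_nonneg h0 ht)
  rw [h2, cfc_id' ℝ a hsa]

namespace IsNormalExpectation

variable {N M : VonNeumannAlgebra H} {E : (H →L[ℂ] H) → (H →L[ℂ] H)}
  (hE : IsNormalExpectation N M E)

include hE

theorem Q_right (ξ : H) {w a : H →L[ℂ] H} (hw : w ∈ M) (ha : a ∈ N) :
    Q E ξ (w * a) = Q E (a ξ) w := by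
  unfold Q
  have h1 : star (w * a) * (w * a) = star a * (star w * w) * a := by
    rw [star_mul]
    simp only [mul_assoc]
  rw [h1, hE.bimod _ (star_mem ha) _ (mul_mem (star_mem hw) hw) _ ha]
  have h2 : (star a * E (star w * w) * a) ξ = star a (E (star w * w) (a ξ)) := rfl
  rw [h2, inner_star (star a), star_star]

/-- The minimum is attained. -/
theorem exists_min (hNM : ∀ a ∈ N, a ∈ M) {x : H →L[ℂ] H} (hx : x ∈ M)
    {p : H →L[ℂ] H} (hpN : p ∈ N) :
    ∃ D₀ : ℝ, 0 ≤ D₀ ∧ (∃ y ∈ KK N x, ∀ ξ, Q E ξ (p * y * p) ≤ D₀ * ‖ξ‖ ^ 2) ∧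
      ∀ D : ℝ, 0 ≤ D → (∃ y ∈ KK N x, ∀ ξ, Q E ξ (p * y * p) ≤ D * ‖ξ‖ ^ 2) → D₀ ≤ D := by
  have hpM : p ∈ M := hNM p hpN
  have hne : {D : ℝ | 0 ≤ D ∧ ∃ y ∈ KK N x, ∀ ξ, Q E ξ (p * y * p) ≤ D * ‖ξ‖ ^ 2}.Nonempty := by
    refine ⟨‖E (star (p * x * p) * (p * x * p))‖, norm_nonneg _, x, KK_self N x, fun ξ => ?_⟩
    unfold Q
    refine (Complex.re_le_norm _).trans ((norm_inner_le_norm _ _).trans ?_)
    have := ContinuousLinearMap.le_opNorm (E (star (p * x * p) * (p * x * p))) ξ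
    nlinarith [norm_nonneg ξ]
  have hbd : BddBelow {D : ℝ | 0 ≤ D ∧ ∃ y ∈ KK N x, ∀ ξ, Q E ξ (p * y * p) ≤ D * ‖ξ‖ ^ 2} :=
    ⟨0, fun D hD => hD.1⟩
  obtain ⟨D₀, hD₀⟩ : ∃ D₀ : ℝ, D₀ =
      sInf {D : ℝ | 0 ≤ D ∧ ∃ y ∈ KK N x, ∀ ξ, Q E ξ (p * y * p) ≤ D * ‖ξ‖ ^ 2} := ⟨_, rfl⟩
  refine ⟨D₀, ?_, ?_, ?_⟩
  · rw [hD₀]
    exact le_csInf hne fun D hD => hD.1
  · have h1 : ∀ n : ℕ, ∃ y ∈ KK N x, ∀ ξ,
        Q E ξ (p * y * p) ≤ (D₀ + 1 / ((n : ℝ) + 1)) * ‖ξ‖ ^ 2 := by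
      intro n
      obtain ⟨D, hD, hD'⟩ := exists_lt_of_csInf_lt hne
        (show sInf _ < D₀ + 1 / ((n : ℝ) + 1) by
          rw [← hD₀]
          have : (0 : ℝ) < 1 / ((n : ℝ) + 1) := by positivity
          linarith)
      obtain ⟨_, y, hy, hy'⟩ := hD
      exact ⟨y, hy, fun ξ => (hy' ξ).trans (mul_le_mul_of_nonneg_right hD'.le (by positivity))⟩
    choose y hy hy' using h1
    obtain ⟨S, hS, hS'⟩ := wlim (hyperfilter ℕ) y ‖x‖ fun n => KK_norm (hy n)
    have hSK : S ∈ KK N x := KK_lim (hyperfilter ℕ : Filter ℕ) y S hy hS'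
    refine ⟨S, hSK, fun ξ => ?_⟩
    refine hE.Q_lsc ξ (hyperfilter ℕ : Filter ℕ) (fun n => p * y n * p) (p * S * p)
      (‖p‖ * ‖x‖ * ‖p‖) (fun n => ⟨mul_mem (mul_mem hpM (KK_mem hNM hx (hy n))) hpM, ?_⟩)
      (mul_mem (mul_mem hpM (KK_mem hNM hx hSK)) hpM)
      (wlim_right _ _ _ p (wlim_left _ _ _ p hS'))
      (fun n => (D₀ + 1 / ((n : ℝ) + 1)) * ‖ξ‖ ^ 2) _ (fun n => hy' n ξ) ?_
    · refine (norm_mul_le _ _).trans (mul_le_mul_of_nonneg_right ?_ (norm_nonneg _))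
      exact (norm_mul_le _ _).trans (mul_le_mul_of_nonneg_left (KK_norm (hy n)) (norm_nonneg _))
    · have h2 : Tendsto (fun n : ℕ => (D₀ + 1 / ((n : ℝ) + 1)) * ‖ξ‖ ^ 2) atTop
          (𝓝 ((D₀ + 0) * ‖ξ‖ ^ 2)) :=
        (tendsto_one_div_add_atTop_nhds_zero_nat.const_add D₀).mul_const _
      rw [add_zero] at h2
      exact h2.mono_left Nat.hyperfilter_le_atTop
  · intro D hD hD'
    rw [hD₀]
    exact csInf_le hbd ⟨hD, hD'⟩

omit hE in
theorem unit_norm {v : H →L[ℂ] H} (hv : star v * v = 1) (ξ : H) : ‖v ξ‖ ^ 2 = ‖ξ‖ ^ 2 := by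
  have e1 := inner_sq v ξ
  rw [hv] at e1
  rw [← e1]
  change (⟪ξ, ξ⟫_ℂ).re = _
  rw [inner_self_eq_norm_sq_to_K]
  norm_cast

omit hE in
theorem conj_comp {p v w : H →L[ℂ] H} (hpv : p * v = v * p) (hvp : star v * p = p * star v) :
    p * (v * w * star v) * p = v * (p * w * p) * star v := by
  calc p * (v * w * star v) * p = (p * v) * w * (star v * p) := by simp only [mul_assoc]
    _ = v * (p * w * p) * star v := by
        rw [hpv, hvp]
        simp only [mul_assoc]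

/-- Averaging over two unitaries. -/
theorem step_one (hNM : ∀ a ∈ N, a ∈ M) {x y p u v : H →L[ℂ] H} (hx : x ∈ M)
    (hpN : p ∈ N) (hp : IsPr p) (hyK : y ∈ KK N x) {D₀ : ℝ}
    (hy : ∀ ξ, Q E ξ (p * y * p) ≤ D₀ * ‖ξ‖ ^ 2) (hu : UP N p u) (hv : UP N p v) :
    ∃ z ∈ KK N x, ∀ ξ, Q E ξ (p * z * p) ≤ D₀ * ‖ξ‖ ^ 2 -
      Q E (v ξ) (u * (p * y * p) * star u - p * y * p) / 4 := by
  have hpM : p ∈ M := hNM p hpN
  have hyM := KK_mem hNM hx hyK
  have hbM : p * y * p ∈ M := mul_mem (mul_mem hpM hyM) hpM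
  have hvs := hv.star hp
  have hus := hu.star hp
  have huM := hNM u hu.1
  have hvM := hNM _ hvs.1
  have hub : u * (p * y * p) * star u ∈ M := mul_mem (mul_mem huM hbM) (star_mem huM)
  refine ⟨(1 / 2 : ℝ) • (star v * (u * y * star u) * star (star v)) +
      (1 / 2 : ℝ) • (star v * y * star (star v)),
    KK_convex (KK_conj (KK_conj hyK hu.2.1 hu.1) hvs.2.1 hvs.1) (KK_conj hyK hvs.2.1 hvs.1)
      (by norm_num) (by norm_num) (by norm_num), fun ξ => ?_⟩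
  have hs1 : p * star v = star v * p := hvs.2.2.symm
  have hs2 : star (star v) * p = p * star (star v) := by rw [star_star]; exact hv.2.2
  have e1 : p * ((1 / 2 : ℝ) • (star v * (u * y * star u) * star (star v)) +
      (1 / 2 : ℝ) • (star v * y * star (star v))) * p =
      (1 / 2 : ℝ) • (star v * (u * (p * y * p) * star u) * star (star v)) +
      (1 / 2 : ℝ) • (star v * (p * y * p) * star (star v)) := by
    rw [mul_add, add_mul, mul_smul_comm, mul_smul_comm, smul_mul_assoc, smul_mul_assoc,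
      conj_comp hs1 hs2, conj_comp hs1 hs2, conj_comp hu.2.2.symm hus.2.2]
  rw [e1, hE.Q_half ξ (mul_mem (mul_mem hvM hub) (star_mem hvM))
    (mul_mem (mul_mem hvM hbM) (star_mem hvM))]
  have hvv : star (star v) * star v = 1 := Unitary.star_mul_self_of_mem hvs.2.1
  have huu : star u * u = 1 := Unitary.star_mul_self_of_mem hu.2.1
  have huu' : star (star u) * star u = 1 := Unitary.star_mul_self_of_mem hus.2.1
  have f1 : Q E ξ (star v * (p * y * p) * star (star v)) ≤ D₀ * ‖ξ‖ ^ 2 := by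
    rw [hE.Q_conj ξ hbM hvs.1 hvv, star_star,
      ← unit_norm (Unitary.star_mul_self_of_mem hv.2.1) ξ]
    exact hy _
  have f2 : Q E ξ (star v * (u * (p * y * p) * star u) * star (star v)) ≤ D₀ * ‖ξ‖ ^ 2 := by
    rw [hE.Q_conj ξ hub hvs.1 hvv, star_star, hE.Q_conj _ hbM hu.1 huu,
      ← unit_norm (Unitary.star_mul_self_of_mem hv.2.1) ξ, ← unit_norm huu' (v ξ)]
    exact hy _
  have f3 : star v * (u * (p * y * p) * star u) * star (star v) -
      star v * (p * y * p) * star (star v) =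
      star v * (u * (p * y * p) * star u - p * y * p) * star (star v) := by
    rw [mul_sub, sub_mul]
  rw [f3, hE.Q_conj ξ (sub_mem hub hbM) hvs.1 hvv]
  simp only [star_star] at f1 f2 ⊢
  linarith

/-- Averaging over a finite family. -/
theorem step_two (hNM : ∀ a ∈ N, a ∈ M) {x y p u : H →L[ℂ] H} (hx : x ∈ M)
    (hpN : p ∈ N) (hp : IsPr p) (hyK : y ∈ KK N x) {D₀ : ℝ}
    (hy : ∀ ξ, Q E ξ (p * y * p) ≤ D₀ * ‖ξ‖ ^ 2) (hu : UP N p u) {J : Type} [Fintype J]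
    [Nonempty J] (v : J → (H →L[ℂ] H)) (hv : ∀ j, UP N p (v j)) :
    ∃ (m : ℝ), 0 < m ∧ ∃ z ∈ KK N x, ∀ ξ, Q E ξ (p * z * p) ≤ D₀ * ‖ξ‖ ^ 2 -
      m * ∑ j, Q E (v j ξ) (u * (p * y * p) * star u - p * y * p) := by
  have hpM : p ∈ M := hNM p hpN
  choose z hz hz' using fun j => hE.step_one hNM hx hpN hp hyK hy hu (hv j)
  obtain ⟨m, hm⟩ : ∃ m : ℝ, m = (Fintype.card J : ℝ) := ⟨_, rfl⟩
  have hmpos : 0 < m := by
    rw [hm]
    exact_mod_cast Fintype.card_pos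
  have hsum1 : ∑ _j : J, (1 / m) = 1 := by
    rw [Finset.sum_const, Finset.card_univ, nsmul_eq_mul, ← hm]
    field_simp
  have hw : ∀ j ∈ (Finset.univ : Finset J), (0 : ℝ) ≤ (fun _ : J => 1 / m) j :=
    fun j _ => by positivity
  have hmemK : ∑ j, (1 / m) • z j ∈ KK N x :=
    Convex.sum_mem (R := ℝ) (w := fun _ : J => 1 / m) (KK_convex (N := N) (x := x)) hw hsum1
      (fun j _ => hz j)
  refine ⟨1 / (4 * m), by positivity, ∑ j, (1 / m) • z j, hmemK, fun ξ => ?_⟩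
  have hpZ : p * (∑ j, (1 / m) • z j) * p = ∑ j, (1 / m) • (p * z j * p) := by
    rw [Finset.mul_sum, Finset.sum_mul]
    refine Finset.sum_congr rfl fun j _ => ?_
    rw [mul_smul_comm, smul_mul_assoc]
  have hpzM : ∀ j, p * z j * p ∈ M := fun j =>
    mul_mem (mul_mem hpM (KK_mem hNM hx (hz j))) hpM
  have e1 : Q E ξ (p * (∑ j, (1 / m) • z j) * p) ≤ ∑ j, (1 / m) • Q E ξ (p * z j * p) := by
    rw [hpZ]
    exact (hE.Q_convex ξ).map_sum_le (fun j _ => by positivity) hsum1 fun j _ => hpzM j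
  have e3 : ∑ j, (1 / m) • Q E ξ (p * z j * p) ≤
      ∑ j, (1 / m) * (D₀ * ‖ξ‖ ^ 2 -
        Q E (v j ξ) (u * (p * y * p) * star u - p * y * p) / 4) :=
    Finset.sum_le_sum fun j _ => mul_le_mul_of_nonneg_left (hz' j ξ) (by positivity)
  have e4 : ∑ j, (1 / m) * (D₀ * ‖ξ‖ ^ 2 -
        Q E (v j ξ) (u * (p * y * p) * star u - p * y * p) / 4) =
      D₀ * ‖ξ‖ ^ 2 - 1 / (4 * m) *
        ∑ j, Q E (v j ξ) (u * (p * y * p) * star u - p * y * p) := by
    rw [← Finset.mul_sum, Finset.sum_sub_distrib, Finset.sum_const, Finset.card_univ,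
      nsmul_eq_mul, ← hm, ← Finset.sum_div]
    field_simp
  linarith

/-- The minimisation argument. -/
theorem trick (hNM : ∀ a ∈ N, a ∈ M)
    (hf : ∀ z ∈ M, E (star z * z) = 0 → z = 0) {x : H →L[ℂ] H} (hx : x ∈ M)
    {p : H →L[ℂ] H} (hpN : p ∈ N) (hp : IsPr p) (hU : UFull N p) :
    ∃ y ∈ KK N x, ∀ u, UP N p u → u * (p * y * p) = (p * y * p) * u := by
  by_cases hp0 : p = 0
  · refine ⟨x, KK_self N x, fun u _ => ?_⟩
    rw [hp0]
    simp
  have hpM : p ∈ M := hNM p hpN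
  obtain ⟨ξ₀, hξ₀, hξ₀'⟩ : ∃ ξ : H, p ξ = ξ ∧ ξ ≠ 0 := by
    obtain ⟨η, hη⟩ : ∃ η, p η ≠ 0 := by
      by_contra hcon
      push Not at hcon
      exact hp0 (ContinuousLinearMap.ext fun x => by simpa using hcon x)
    exact ⟨p η, congrArg (fun T : H →L[ℂ] H => T η) hp.2, hη⟩
  obtain ⟨D₀, hD₀0, ⟨y, hyK, hy⟩, hmin⟩ := hE.exists_min hNM hx hpN
  refine ⟨y, hyK, fun u hu => ?_⟩
  by_contra hcomm
  have hyM := KK_mem hNM hx hyK
  have hbM : p * y * p ∈ M := mul_mem (mul_mem hpM hyM) hpM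
  have hbp : (p * y * p) * p = p * y * p := by rw [mul_assoc, hp.2]
  have huu : star u * u = 1 := Unitary.star_mul_self_of_mem hu.2.1
  have huM := hNM u hu.1
  have hup' := (hu.star hp).2.2
  obtain ⟨c, hc⟩ : ∃ c, c = u * (p * y * p) * star u - p * y * p := ⟨_, rfl⟩
  have hc0 : c ≠ 0 := by
    intro h0
    apply hcomm
    have h1 : u * (p * y * p) * star u = p * y * p := sub_eq_zero.1 (hc ▸ h0)
    calc u * (p * y * p) = u * (p * y * p) * (star u * u) := by rw [huu, mul_one]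
      _ = (u * (p * y * p) * star u) * u := by simp only [mul_assoc]
      _ = (p * y * p) * u := by rw [h1]
  have hcM : c ∈ M := hc ▸ sub_mem (mul_mem (mul_mem huM hbM) (star_mem huM)) hbM
  have hcp : c * p = c := by
    have e1 : u * (p * y * p) * star u * p = u * (p * y * p) * star u := by
      calc u * (p * y * p) * star u * p = u * (p * y * p) * (star u * p) := by rw [mul_assoc]
        _ = u * ((p * y * p) * p) * star u := by
            rw [hup']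
            simp only [mul_assoc]
        _ = _ := by rw [hbp]
    rw [hc, sub_mul, hbp, e1]
  have haN : E (star c * c) ∈ N := hE.mem _ (mul_mem (star_mem hcM) hcM)
  obtain ⟨s, hsN, hs⟩ := exists_sqrt N haN (hE.pos c hcM)
  have hs0 : s ≠ 0 := by
    intro h0
    rw [h0, mul_zero] at hs
    exact hc0 (hf c hcM hs.symm)
  have hap : E (star c * c) * p = E (star c * c) := by
    rw [← hE.right (mul_mem (star_mem hcM) hcM) hpN, mul_assoc, hcp]
  have hpa : p * E (star c * c) = E (star c * c) := by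
    rw [← hE.left hpN (mul_mem (star_mem hcM) hcM), ← mul_assoc]
    have := congrArg star hcp
    rw [star_mul, hp.1] at this
    rw [this]
  have hsp : s * p = s := by
    have h1 : star (s * p - s) * (s * p - s) = 0 := by
      have e1 : star (s * p - s) * (s * p - s) =
          p * (star s * s) * p - p * (star s * s) - (star s * s) * p + star s * s := by
        rw [star_sub, star_mul, hp.1, sub_mul, mul_sub, mul_sub]
        simp only [mul_assoc]
        abel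
      rw [e1, hs, hpa, hap]
      abel
    exact sub_eq_zero.1 (op_ext_zero h1)
  have hQc : ∀ ξ, Q E ξ c = ‖s ξ‖ ^ 2 := by
    intro ξ
    unfold Q
    rw [← hs, inner_sq]
  obtain ⟨J, hJ, v, C, hC, hv, hvC⟩ := hU s hsN hs0 hsp
  have h1 := hvC ξ₀ hξ₀
  have hξpos : 0 < ‖ξ₀‖ ^ 2 := by
    have := norm_pos_iff.2 hξ₀'
    positivity
  have hCpos : 0 < C := by
    rcases eq_or_lt_of_le hC with h | h
    · rw [← h, zero_mul] at h1
      linarith
    · exact h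
  have hJne : Nonempty J := by
    by_contra hcon
    rw [not_nonempty_iff] at hcon
    rw [Finset.univ_eq_empty, Finset.sum_empty, mul_zero] at h1
    linarith
  obtain ⟨m, hm, Z, hZK, hZ⟩ := hE.step_two hNM hx hpN hp hyK hy hu v hv
  rw [← hc] at hZ
  have hδ : 0 < m / C := by positivity
  have hest : ∀ ξ : H, p ξ = ξ → Q E ξ (p * Z * p) ≤ (D₀ - m / C) * ‖ξ‖ ^ 2 := by
    intro ξ hξ
    have e1 := hZ ξ
    simp only [hQc] at e1
    have e5 := hvC ξ hξ
    have e6 : m / C * ‖ξ‖ ^ 2 ≤ m * ∑ j, ‖s (v j ξ)‖ ^ 2 := by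
      have g1 : m / C * ‖ξ‖ ^ 2 ≤ m / C * (C * ∑ j, ‖s (v j ξ)‖ ^ 2) :=
        mul_le_mul_of_nonneg_left e5 hδ.le
      refine g1.trans (le_of_eq ?_)
      field_simp
    rw [sub_mul]
    linarith
  have hest' : ∀ ξ : H, Q E ξ (p * Z * p) ≤ (D₀ - m / C) * ‖p ξ‖ ^ 2 := by
    intro ξ
    have e1 : p * Z * p = (p * Z * p) * p := by rw [mul_assoc (p * Z), hp.2]
    have e2 : Q E ξ (p * Z * p) = Q E (p ξ) (p * Z * p) := by
      nth_rewrite 1 [e1]
      exact hE.Q_right ξ (mul_mem (mul_mem hpM (KK_mem hNM hx hZK)) hpM) hpN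
    rw [e2]
    exact hest (p ξ) (congrArg (fun T : H →L[ℂ] H => T ξ) hp.2)
  rcases le_or_gt 0 (D₀ - m / C) with h | h
  · have := hmin (D₀ - m / C) h ⟨Z, hZK, fun ξ => (hest' ξ).trans
      (mul_le_mul_of_nonneg_left (pow_le_pow_left₀ (norm_nonneg _) (isPr_norm_le hp ξ) 2) h)⟩
    linarith
  · have e1 := hest ξ₀ hξ₀
    have e2 := hE.Q_nonneg ξ₀ (mul_mem (mul_mem hpM (KK_mem hNM hx hZK)) hpM)
    have e3 : (D₀ - m / C) * ‖ξ₀‖ ^ 2 < 0 := mul_neg_of_neg_of_pos h hξpos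
    linarith

end IsNormalExpectation

end Pool.Agent.W26.WD
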