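import Mathlib
import Pool.Agent.W26.WD.Basic
import Pool.Agent.W26.WD.Hull
import Pool.Agent.W26.WD.Spec
import Pool.Agent.W26.WD.Faith
import Pool.Agent.W26.WD.Full
import Pool.Agent.W26.WD.Uni
import Pool.Agent.W26.WD.Trick

/-!
The weak relative Dixmier property of irreducible inclusions with a normal conditional expectation.
-/

set_option autoImplicit false
open scoped InnerProductSpace ComplexOrder Topology
open Filter

noncomputable section

namespace Pool.Agent.W26.WD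

open H759R2.Kad

variable {H : Type} [NormedAddCommGroup H] [InnerProductSpace ℂ H] [CompleteSpace H]

/-- Weak limits evaluated at norm convergent vectors. -/
theorem wlim_vec {ι : Type} (l : Filter ι) (T : ι → (H →L[ℂ] H)) (S : H →L[ℂ] H) (C : ℝ)
    (hC : ∀ i, ‖T i‖ ≤ C)
    (h : ∀ ξ η : H, Tendsto (fun i => ⟪η, T i ξ⟫_ℂ) l (𝓝 ⟪η, S ξ⟫_ℂ)) (w : ι → H) (ξ η : H)
    (hw : Tendsto w l (𝓝 ξ)) : Tendsto (fun i => ⟪η, T i (w i)⟫_ℂ) l (𝓝 ⟪η, S ξ⟫_ℂ) := by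
  have h1 : Tendsto (fun i => ⟪η, T i (w i - ξ)⟫_ℂ) l (𝓝 0) := by
    have h2 : Tendsto (fun i => ‖η‖ * (C * ‖w i - ξ‖)) l (𝓝 0) := by
      have h3 : Tendsto (fun i => ‖w i - ξ‖) l (𝓝 0) := by
        have := (hw.sub_const ξ).norm
        simpa using this
      simpa using (h3.const_mul C).const_mul ‖η‖
    refine squeeze_zero_norm (fun i => ?_) h2
    refine (norm_inner_le_norm _ _).trans (mul_le_mul_of_nonneg_left ?_ (norm_nonneg _))
    exact ((T i).le_opNorm _).trans (mul_le_mul_of_nonneg_right (hC i) (norm_nonneg _))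
  have h4 := h1.add (h ξ η)
  rw [zero_add] at h4
  refine h4.congr fun i => ?_
  rw [← inner_add_right, ← map_add, sub_add_cancel]

theorem wlim_vec' {ι : Type} (l : Filter ι) (T : ι → (H →L[ℂ] H)) (S : H →L[ℂ] H) (C : ℝ)
    (hC : ∀ i, ‖T i‖ ≤ C)
    (h : ∀ ξ η : H, Tendsto (fun i => ⟪η, T i ξ⟫_ℂ) l (𝓝 ⟪η, S ξ⟫_ℂ)) (w : ι → H) (ξ η : H)
    (hw : Tendsto w l (𝓝 η)) : Tendsto (fun i => ⟪w i, T i ξ⟫_ℂ) l (𝓝 ⟪η, S ξ⟫_ℂ) := by
  have h1 : Tendsto (fun i => ⟪w i - η, T i ξ⟫_ℂ) l (𝓝 0) := by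
    have h2 : Tendsto (fun i => ‖w i - η‖ * (C * ‖ξ‖)) l (𝓝 0) := by
      have h3 : Tendsto (fun i => ‖w i - η‖) l (𝓝 0) := by
        have := (hw.sub_const η).norm
        simpa using this
      simpa using h3.mul_const (C * ‖ξ‖)
    refine squeeze_zero_norm (fun i => ?_) h2
    refine (norm_inner_le_norm _ _).trans (mul_le_mul_of_nonneg_left ?_ (norm_nonneg _))
    exact ((T i).le_opNorm _).trans (mul_le_mul_of_nonneg_right (hC i) (norm_nonneg _))
  have h4 := h1.add (h ξ η)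
  rw [zero_add] at h4
  refine h4.congr fun i => ?_
  rw [← inner_add_left, sub_add_cancel]

/-- Weak convergence of projections to the unit is strong convergence. -/
theorem strong_of_weak {ι : Type} (l : Filter ι) (p : ι → (H →L[ℂ] H)) (hp : ∀ i, IsPr (p i))
    (h : ∀ ξ η : H, Tendsto (fun i => ⟪η, p i ξ⟫_ℂ) l (𝓝 ⟪η, (1 : H →L[ℂ] H) ξ⟫_ℂ)) (ξ : H) :
    Tendsto (fun i => p i ξ) l (𝓝 ξ) := by
  have h1 : ∀ i, ‖p i ξ - ξ‖ ^ 2 = ‖ξ‖ ^ 2 - (⟪ξ, p i ξ⟫_ℂ).re := by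
    intro i
    have e1 : ‖p i ξ‖ ^ 2 = (⟪ξ, p i ξ⟫_ℂ).re := by
      have := inner_sq (p i) ξ
      rw [(hp i).1, (hp i).2] at this
      exact this.symm
    have e2 : (⟪p i ξ, ξ⟫_ℂ).re = (⟪ξ, p i ξ⟫_ℂ).re := by
      rw [← inner_conj_symm, Complex.conj_re]
    rw [@norm_sub_sq ℂ]
    have e3 : RCLike.re ⟪p i ξ, ξ⟫_ℂ = (⟪ξ, p i ξ⟫_ℂ).re := e2
    rw [e3, e1]
    ring
  have h2 : Tendsto (fun i => ‖p i ξ - ξ‖ ^ 2) l (𝓝 0) := by
    simp only [h1]
    have h3 := (Complex.continuous_re.tendsto _).comp (h ξ ξ)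
    have h4 : (⟪ξ, (1 : H →L[ℂ] H) ξ⟫_ℂ).re = ‖ξ‖ ^ 2 := by
      change (⟪ξ, ξ⟫_ℂ).re = _
      rw [inner_self_eq_norm_sq_to_K]
      norm_cast
    rw [h4] at h3
    have h5 := h3.const_sub (‖ξ‖ ^ 2)
    rw [sub_self] at h5
    exact h5
  have h3 : Tendsto (fun i => ‖p i ξ - ξ‖) l (𝓝 0) := by
    have := h2.sqrt
    rw [Real.sqrt_zero] at this
    refine this.congr fun i => ?_
    exact Real.sqrt_sq (norm_nonneg _)
  rw [tendsto_iff_norm_sub_tendsto_zero]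
  exact h3

theorem strong_vec {ι : Type} (l : Filter ι) (p : ι → (H →L[ℂ] H)) (hp : ∀ i, IsPr (p i))
    (h : ∀ ξ : H, Tendsto (fun i => p i ξ) l (𝓝 ξ)) (w : ι → H) (ξ : H)
    (hw : Tendsto w l (𝓝 ξ)) : Tendsto (fun i => p i (w i)) l (𝓝 ξ) := by
  have h1 : Tendsto (fun i => p i (w i - ξ)) l (𝓝 0) := by
    have h2 : Tendsto (fun i => ‖w i - ξ‖) l (𝓝 0) := by
      have := (hw.sub_const ξ).norm
      simpa using this
    exact squeeze_zero_norm (fun i => isPr_norm_le (hp i) _) h2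
  have h3 := h1.add (h ξ)
  rw [zero_add] at h3
  refine h3.congr fun i => ?_
  rw [← map_add, sub_add_cancel]

/-- In every simple corner: an element of the hull commuting with the corner. -/
theorem corner {N M : VonNeumannAlgebra H} {E : (H →L[ℂ] H) → (H →L[ℂ] H)}
    (hE : IsNormalExpectation N M E) (hNM : ∀ a ∈ N, a ∈ M)
    (hf : ∀ z ∈ M, E (star z * z) = 0 → z = 0) {x : H →L[ℂ] H} (hx : x ∈ M)
    {p : H →L[ℂ] H} (hpN : p ∈ N) (hp : IsPr p) (hG : GFull N p) :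
    ∃ y ∈ KK N x, ∀ n ∈ N, y * (p * n * p) = (p * n * p) * y := by
  obtain ⟨y, hyK, hy⟩ := hE.trick hNM hf hx hpN hp (ufull_of_gfull N hpN hp hG)
  have h2p : (2 : ℝ) • p - 1 ∈ N := sub_mem (rsmul_mem_vn N _ hpN) (one_mem N)
  have h2s : star ((2 : ℝ) • p - 1) = (2 : ℝ) • p - 1 := by
    rw [star_sub, star_smul, star_trivial, hp.1, star_one]
  have h2u : ((2 : ℝ) • p - 1) * ((2 : ℝ) • p - 1) = 1 := by
    rw [sub_mul, mul_sub, mul_one, one_mul, smul_mul_smul_comm, hp.2]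
    norm_num
    have : (4 : ℝ) • p = (2 : ℝ) • p + (2 : ℝ) • p := by
      rw [← add_smul]
      norm_num
    rw [this]
    abel
  have h2U : (2 : ℝ) • p - 1 ∈ unitary (H →L[ℂ] H) := by
    rw [Unitary.mem_iff, h2s]
    exact ⟨h2u, h2u⟩
  have h2 := KK_conj hyK h2U h2p
  refine ⟨(1 / 2 : ℝ) • y + (1 / 2 : ℝ) • (((2 : ℝ) • p - 1) * y * star ((2 : ℝ) • p - 1)),
    KK_convex hyK h2 (by norm_num) (by norm_num) (by norm_num), fun n hn => ?_⟩
  rw [h2s]
  have hk : (p * n * p) * p = p * (p * n * p) := by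
    rw [mul_assoc, hp.2, ← mul_assoc, ← mul_assoc, hp.2]
  have hkp : (p * n * p) * p = p * n * p := by rw [mul_assoc, hp.2]
  have hpk : p * (p * n * p) = p * n * p := by rw [← hk, hkp]
  obtain ⟨u, c, hu, hc⟩ := four_units N (mul_mem (mul_mem hpN hn) hpN) hp hk
  have hcomm : (p * n * p) * (p * y * p) = (p * y * p) * (p * n * p) := by
    rw [hc, Finset.sum_mul, Finset.mul_sum]
    refine Finset.sum_congr rfl fun l _ => ?_
    rw [smul_mul_assoc, mul_smul_comm, hy (u l) (hu l)]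
  have e1 : ((2 : ℝ) • p - 1) * (p * n * p) = p * n * p := by
    rw [sub_mul, one_mul, smul_mul_assoc, hpk, two_smul]
    abel
  have e2 : (p * n * p) * ((2 : ℝ) • p - 1) = p * n * p := by
    rw [mul_sub, mul_one, mul_smul_comm, hkp, two_smul]
    abel
  have hhalf : ∀ a : H →L[ℂ] H, (1 / 2 : ℝ) • a + (1 / 2 : ℝ) • a = a := by
    intro a
    rw [← add_smul]
    norm_num
  have e3 : y * (p * n * p) + ((2 : ℝ) • p - 1) * y * (p * n * p) =
      (2 : ℝ) • ((p * y * p) * (p * n * p)) := by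
    have g1 : (p * y * p) * (p * n * p) = p * y * (p * n * p) := by
      rw [mul_assoc (p * y), hpk]
    rw [g1, sub_mul, sub_mul, one_mul, smul_mul_assoc, smul_mul_assoc]
    abel
  have e4 : (p * n * p) * y + (p * n * p) * y * ((2 : ℝ) • p - 1) =
      (2 : ℝ) • ((p * n * p) * (p * y * p)) := by
    have g1 : (p * n * p) * (p * y * p) = (p * n * p) * y * p := by
      calc (p * n * p) * (p * y * p) = ((p * n * p) * p) * y * p := by simp only [mul_assoc]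
        _ = _ := by rw [hkp]
    rw [g1, mul_sub, mul_one, mul_smul_comm]
    abel
  calc ((1 / 2 : ℝ) • y + (1 / 2 : ℝ) • (((2 : ℝ) • p - 1) * y * ((2 : ℝ) • p - 1))) *
        (p * n * p)
      = (1 / 2 : ℝ) • (y * (p * n * p) + ((2 : ℝ) • p - 1) * y * (p * n * p)) := by
        rw [add_mul, smul_mul_assoc, smul_mul_assoc, mul_assoc (((2 : ℝ) • p - 1) * y), e1,
          smul_add]
    _ = (1 / 2 : ℝ) • ((p * n * p) * y + (p * n * p) * y * ((2 : ℝ) • p - 1)) := by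
        rw [e3, e4, hcomm]
    _ = _ := by
        rw [mul_add, mul_smul_comm, mul_smul_comm, smul_add]
        congr 2
        rw [← mul_assoc, ← mul_assoc, e2]

/-- The weak relative Dixmier property for factors with a faithful normal expectation. -/
theorem main_faithful [TopologicalSpace.SeparableSpace H] {N M : VonNeumannAlgebra H}
    {E : (H →L[ℂ] H) → (H →L[ℂ] H)} (hE : IsNormalExpectation N M E) (hNM : ∀ a ∈ N, a ∈ M)
    (hfac : IsFac N) (hf : ∀ z ∈ M, E (star z * z) = 0 → z = 0) {x : H →L[ℂ] H} (hx : x ∈ M) :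
    ∃ y ∈ KK N x, ∀ n ∈ N, y * n = n * y := by
  obtain ⟨ι, q, hq, ho, hq1, hfull⟩ := exists_net N hfac
  have hqp : ∀ i, IsPr (q i) := fun i => (hq i).2
  have hpN : ∀ F : Finset ι, ∑ i ∈ F, q i ∈ N := fun F => sum_mem fun i _ => (hq i).1
  choose y hyK hy using fun F : Finset ι =>
    corner hE hNM hf hx (hpN F) (isPr_sum q hqp ho F).1 (hfull F)
  obtain ⟨S, hS, hS'⟩ := wlim (Ultrafilter.of (atTop : Filter (Finset ι))) y ‖x‖
    fun F => KK_norm (hyK F)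
  have hlim := isPr_lim q hqp ho 1 (fun i => one_mul _) (star_one _)
    (fun y hy => by rw [mul_one]; exact hq1 y hy) (Ultrafilter.of atTop) (Ultrafilter.of_le _)
  have hstr := strong_of_weak (Ultrafilter.of (atTop : Filter (Finset ι)) : Filter (Finset ι))
    (fun F => ∑ i ∈ F, q i) (fun F => (isPr_sum q hqp ho F).1) hlim
  refine ⟨S, KK_lim (Ultrafilter.of (atTop : Filter (Finset ι)) : Filter (Finset ι)) y S hyK hS',
    fun n _ => ?_⟩
  refine ContinuousLinearMap.ext fun ξ => ext_inner_left ℂ fun η => ?_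
  have hpF : ∀ F : Finset ι, IsPr (∑ i ∈ F, q i) := fun F => (isPr_sum q hqp ho F).1
  have t1 : Tendsto (fun F : Finset ι => (∑ i ∈ F, q i) (n ((∑ i ∈ F, q i) ξ)))
      (Ultrafilter.of (atTop : Filter (Finset ι)) : Filter (Finset ι)) (𝓝 (n ξ)) :=
    strong_vec _ _ hpF hstr _ _ ((n.continuous.tendsto ξ).comp (hstr ξ))
  have t2 : Tendsto (fun F : Finset ι => (∑ i ∈ F, q i) (star n ((∑ i ∈ F, q i) η)))
      (Ultrafilter.of (atTop : Filter (Finset ι)) : Filter (Finset ι)) (𝓝 (star n η)) :=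
    strong_vec _ _ hpF hstr _ _ (((star n).continuous.tendsto η).comp (hstr η))
  have s1 := wlim_vec _ y S ‖x‖ (fun F => KK_norm (hyK F)) hS' _ (n ξ) η t1
  have s2 := wlim_vec' _ y S ‖x‖ (fun F => KK_norm (hyK F)) hS' _ ξ (star n η) t2
  have e1 : ∀ F : Finset ι, ⟪η, y F ((∑ i ∈ F, q i) (n ((∑ i ∈ F, q i) ξ)))⟫_ℂ =
      ⟪(∑ i ∈ F, q i) (star n ((∑ i ∈ F, q i) η)), y F ξ⟫_ℂ := by
    intro F
    have f1 := congrArg (fun T : H →L[ℂ] H => ⟪η, T ξ⟫_ℂ) (hy F n ‹_›)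
    have f2 : (y F * ((∑ i ∈ F, q i) * n * ∑ i ∈ F, q i)) ξ =
      y F ((∑ i ∈ F, q i) (n ((∑ i ∈ F, q i) ξ))) := rfl
    have f3 : (((∑ i ∈ F, q i) * n * ∑ i ∈ F, q i) * y F) ξ =
      (∑ i ∈ F, q i) (n ((∑ i ∈ F, q i) (y F ξ))) := rfl
    rw [f2, f3, inner_star (∑ i ∈ F, q i), inner_star n, inner_star (∑ i ∈ F, q i),
      (hpF F).1] at f1
    exact f1
  have s3 := s1.congr e1
  have s4 := tendsto_nhds_unique s3 s2
  have f4 : (S * n) ξ = S (n ξ) := rfl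
  have f5 : (n * S) ξ = n (S ξ) := rfl
  rw [f4, f5, s4, inner_star n]

/-- The weak relative Dixmier property of irreducible inclusions with a normal conditional
expectation. -/
theorem main_irr [TopologicalSpace.SeparableSpace H] {N M : VonNeumannAlgebra H}
    {E : (H →L[ℂ] H) → (H →L[ℂ] H)} (hE : IsNormalExpectation N M E) (hNM : ∀ a ∈ N, a ∈ M)
    (hirr : ∀ z ∈ M, (∀ y ∈ N, z * y = y * z) → ∃ c : ℂ, z = c • (1 : H →L[ℂ] H))
    {x : H →L[ℂ] H} (hx : x ∈ M) : ∃ c : ℂ, c • (1 : H →L[ℂ] H) ∈ KK N x := by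
  by_cases h10 : (1 : H →L[ℂ] H) = 0
  · refine ⟨0, ?_⟩
    have : (0 : ℂ) • (1 : H →L[ℂ] H) = x := by
      rw [zero_smul, ← mul_one x, h10, mul_zero]
    rw [this]
    exact KK_self N x
  have hf : ∀ z ∈ M, E (star z * z) = 0 → z = 0 := fun z hz hz0 =>
    hE.faithful hNM hirr h10 hz hz0
  have hfac : IsFac N := fun z hz hz' => hirr z (hNM z hz) hz'
  obtain ⟨y, hyK, hy⟩ := main_faithful hE hNM hfac hf hx
  obtain ⟨c, hc⟩ := hirr y (KK_mem hNM hx hyK) hy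
  exact ⟨c, hc ▸ hyK⟩

end Pool.Agent.W26.WD
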